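import Pool.Agent.Mg.Ffc94d9.Gf3837a
import Pool.Agent.MP_fc94d9_co.Abstract

section

set_option autoImplicit false

open MeasureTheory Filter Topology Set

noncomputable section

namespace Pool.Agent.MP_fc94d9_co

/-- Characters that are continuous on `m ℤ[i][1/(2-i)]` for some nonzero `m`. -/
def Ycond (θ : X) : Prop :=
  ∃ m : GaussianInt, m ≠ 0 ∧ ∃ ξ : ℂ, ∀ e : ℕ, Van (θ - chi ξ) (jj m / jj qq ^ e)

/-- `1 + j i`. -/
def aa (j : ℕ) : GaussianInt := ⟨1, j⟩

lemma aa_ne (j : ℕ) : aa j ≠ 0 := by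
  intro h; have := congrArg Zsqrtd.re h; simp [aa] at this

lemma star_aa_ne (j : ℕ) : star (aa j) ≠ 0 := by simpa using aa_ne j

/-- `2 (j - j') i`. -/
def mm (j j' : ℕ) : GaussianInt := ⟨0, 2 * ((j : ℤ) - j')⟩

lemma mm_ne {j j' : ℕ} (h : j ≠ j') : mm j j' ≠ 0 := by
  intro h0; have := congrArg Zsqrtd.im h0; simp [mm] at this; omega

lemma rot_aa_sub (j j' : ℕ) :
    rot (aa j) - rot (aa j') = jj (mm j j') / (jj (star (aa j)) * jj (star (aa j'))) := by
  have h1 := jj_ne_zero (star_aa_ne j)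
  have h2 := jj_ne_zero (star_aa_ne j')
  have : mm j j' = aa j * star (aa j') - aa j' * star (aa j) := by
    ext <;> simp [mm, aa] <;> ring
  rw [this, rot, rot, map_sub, map_mul, map_mul]
  field_simp

lemma norm_aa_le {j H : ℕ} (h : j < H) : ‖(aa j : ℂ)‖ ≤ H := by
  have h1 := norm_coe_sq (aa j)
  have h2 : ((aa j).norm : ℝ) = 1 + (j : ℝ) ^ 2 := by simp [aa, Zsqrtd.norm]; ring
  have h3 : (j : ℝ) + 1 ≤ H := by exact_mod_cast h
  have h4 : (0 : ℝ) ≤ j := by positivity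
  apply le_of_sq_le_sq _ (by positivity)
  nlinarith

lemma norm_mm_le {j j' H : ℕ} (h : j < H) (h' : j' < H) : ‖(mm j j' : ℂ)‖ ≤ 2 * H := by
  have h1 := norm_coe_sq (mm j j')
  have h2 : ((mm j j').norm : ℝ) = 4 * ((j : ℝ) - j') ^ 2 := by simp [mm, Zsqrtd.norm]; ring
  have h3 : (j : ℝ) < H := by exact_mod_cast h
  have h3' : (j' : ℝ) < H := by exact_mod_cast h'
  have h4 : (0 : ℝ) ≤ j := by positivity
  have h4' : (0 : ℝ) ≤ j' := by positivity
  apply le_of_sq_le_sq _ (by positivity)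
  nlinarith

lemma S_sub_left (u u' : G) (θ : X) : S (u - u') θ = S u θ - S u' θ := by
  ext z; simp [sub_mul]

lemma van_of_S {θ : X} {u γ : G} {ξ : ℂ} (hu : u ≠ 0) :
    Van (S u θ - chi ξ) γ ↔ Van (θ - chi (ξ / io u)) (u * γ) := by
  rw [← van_S, S_sub, S_chi, div_mul_cancel₀ _ (io_ne_zero hu)]

lemma van_diff {θ : X} {u u' γ : G} {ξ ξ' : ℂ} (hd : u - u' ≠ 0)
    (h : Van (S u θ - chi ξ - (S u' θ - chi ξ')) γ) :
    Van (θ - chi ((ξ - ξ') / io (u - u'))) ((u - u') * γ) := by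
  rw [← van_of_S hd, S_sub_left, chi_sub]
  convert h using 1
  abel

lemma rot_aa_sub_ne {j j' : ℕ} (h : j ≠ j') : rot (aa j) - rot (aa j') ≠ 0 := by
  rw [rot_aa_sub]
  exact div_ne_zero (jj_ne_zero (mm_ne h))
    (mul_ne_zero (jj_ne_zero (star_aa_ne j)) (jj_ne_zero (star_aa_ne j')))

lemma key_disjoint {θ : X} {ξ ξ' : ℂ} {j j' H k r : ℕ} {γ : G} (hγ : γ ≠ 0)
    (hξ : ‖ξ‖ ≤ 1 / 4) (hξ' : ‖ξ'‖ ≤ 1 / 4) (hj : j < H) (hj' : j' < H) (hne : j ≠ j')
    (hs1 : (H : ℝ) ^ 3 * ‖io (γ * jj qq ^ k)‖ < 1) (hs2 : 4 * H ^ 4 ≤ 5 ^ r)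
    (h1 : Van (S (rot (aa j)) θ - chi ξ) (γ * jj qq ^ k))
    (h3 : Van (S (rot (aa j)) θ - chi ξ - (S (rot (aa j')) θ - chi ξ')) (γ / jj qq ^ r)) :
    Van (S (rot (aa j)) θ - chi ξ) γ := by
  set a := aa j with ha
  set a' := aa j' with ha'
  set m := mm j j' with hm
  have ha0 : jj a ≠ 0 := jj_ne_zero (aa_ne j)
  have hb0 : jj (star a) ≠ 0 := jj_ne_zero (star_aa_ne j)
  have hb0' : jj (star a') ≠ 0 := jj_ne_zero (star_aa_ne j')
  have hm0 : jj m ≠ 0 := jj_ne_zero (mm_ne hne)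
  have hq := jj_qq_ne
  have hu : rot a ≠ 0 := div_ne_zero ha0 hb0
  have hd := rot_aa_sub_ne hne
  have V1 := (van_of_S hu).1 h1
  have V2 := van_diff hd h3
  rw [van_of_S hu]
  set ξ1 := ξ / io (rot a) with hξ1
  set ξ2 := (ξ - ξ') / io (rot a - rot a') with hξ2
  rw [rot_aa_sub] at V2
  have hH : (1 : ℝ) ≤ H := by exact_mod_cast (Nat.zero_lt_of_lt hj)
  have na := norm_aa_le hj
  have na' := norm_aa_le hj'
  have nm := norm_mm_le hj hj'
  have nm1 := one_le_norm_coe (mm_ne hne)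
  have heq : ξ2 - ξ1 = 0 := by
    have W1 : Van (θ - chi ξ1) (jj (a * m) * (γ * jj qq ^ k)) :=
      V1.of_eq (star a * m) (by simp only [rot, map_mul]; field_simp)
    have W2 : Van (θ - chi ξ2) (jj (a * m) * (γ * jj qq ^ k)) :=
      V2.of_eq (star a * star a' * a * qq ^ (k + r))
        (by simp only [map_mul, map_pow, ← ha, ← ha', ← hm]; field_simp; ring)
    have W3 : Van (chi (ξ2 - ξ1)) (jj (a * m) * (γ * jj qq ^ k)) := by
      have := W1.sub W2
      rw [chi_sub]; convert this using 1; abel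
    refine W3.chi_eq_zero (mul_ne_zero (jj_ne_zero (mul_ne_zero (aa_ne j) (mm_ne hne)))
      (mul_ne_zero hγ (pow_ne_zero _ hq))) ?_
    have n1 : ‖ξ1‖ ≤ 1 / 4 := by rw [hξ1, norm_div, norm_io_rot (aa_ne j), div_one]; exact hξ
    have n2 : ‖ξ2‖ * ‖(m : ℂ)‖ ≤ 1 / 2 * H ^ 2 := by
      rw [hξ2, rot_aa_sub, norm_div, map_div₀, map_mul, io_jj, io_jj, io_jj, norm_div, norm_mul,
        norm_coe_star, norm_coe_star, div_div_eq_mul_div, div_mul_cancel₀ _ (by linarith)]
      have : ‖ξ - ξ'‖ ≤ 1 / 2 := (norm_sub_le _ _).trans (by linarith)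
      rw [sq]
      gcongr
    rw [map_mul io, norm_mul, io_jj, map_mul, norm_mul]
    have n3 : ‖ξ2 - ξ1‖ * ‖(m : ℂ)‖ ≤ H ^ 2 := by
      have := norm_sub_le ξ2 ξ1
      nlinarith [norm_nonneg ξ1, norm_nonneg ξ2]
    have n4 : ‖ξ2 - ξ1‖ * ‖(m : ℂ)‖ * ‖(a : ℂ)‖ ≤ H ^ 2 * H := by gcongr
    calc ‖ξ2 - ξ1‖ * (‖(a : ℂ)‖ * ‖(m : ℂ)‖ * ‖io (γ * jj qq ^ k)‖)
        = (‖ξ2 - ξ1‖ * ‖(m : ℂ)‖ * ‖(a : ℂ)‖) * ‖io (γ * jj qq ^ k)‖ := by ring
      _ ≤ (H ^ 2 * H) * ‖io (γ * jj qq ^ k)‖ := by gcongr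
      _ < 1 := by rw [← pow_succ]; exact hs1
  rw [sub_eq_zero.1 heq] at V2
  obtain ⟨v, g, hvg, hcop, hv⟩ := exists_factor_qq (mul_ne_zero (star_aa_ne j) (mm_ne hne))
  have hvr : v ≤ r := by
    have e1 : (((star a * m).norm : ℤ) : ℝ) ≤ 4 * H ^ 4 := by
      rw [← norm_coe_sq, map_mul, norm_mul, norm_coe_star]
      calc (‖(a : ℂ)‖ * ‖(m : ℂ)‖) ^ 2 ≤ (H * (2 * H)) ^ 2 := by gcongr
        _ = _ := by ring
    have e2 : ((5 : ℝ)) ^ v ≤ ((star a * m).norm : ℝ) := by exact_mod_cast hv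
    have e3 : (4 : ℝ) * H ^ 4 ≤ 5 ^ r := by exact_mod_cast hs2
    exact (pow_le_pow_iff_right₀ (by norm_num : (1 : ℝ) < 5)).1 (e2.trans (e1.trans e3))
  obtain ⟨t, rfl⟩ := Nat.exists_eq_add_of_le hvr
  refine Van.of_coprime (a := qq ^ k) (b := g) hcop.symm.pow_left ?_ ?_
  · rw [map_pow, mul_assoc]; exact V1
  · refine V2.of_eq (star a' * a * star a * qq ^ t) ?_
    have e : jj g = jj (star a) * jj m / jj qq ^ v := by
      rw [← map_mul, hvg, map_mul, map_pow]; field_simp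
    simp only [rot, map_mul, map_pow, ← ha, ← ha', ← hm, e]
    field_simp
    ring

lemma card_torsion_pairs (n : ℕ) (hn : n ≠ 0) (s : Finset (T × T)) (x0 : T × T)
    (h : ∀ x ∈ s, n • (x - x0) = 0) : s.card ≤ n ^ 2 := by
  classical
  have hfin : {x : T | n • x = 0}.Finite := AddCircle.finite_torsion 1 (Nat.pos_of_ne_zero hn)
  have hcard : hfin.toFinset.card ≤ n := by
    have := AddCircle.card_torsion_le_of_isSMulRegular (1 : ℝ) n hn
      (by intro x y hxy
          simpa [hn] using hxy)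
    rw [hfin.encard_eq_coe_toFinset_card] at this
    exact_mod_cast this
  have : s.card ≤ (hfin.toFinset ×ˢ hfin.toFinset).card := by
    apply Finset.card_le_card_of_injOn (fun x => x - x0)
    · intro x hx
      have := h x hx
      simp only [Finset.coe_product, Set.Finite.coe_toFinset, mem_prod, mem_ofPred_eq]
      exact ⟨congrArg Prod.fst this, congrArg Prod.snd this⟩
    · intro x _ y _ hxy
      simpa using hxy
  rw [Finset.card_product] at this
  calc _ ≤ _ := this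
    _ ≤ n * n := Nat.mul_le_mul hcard hcard
    _ = _ := by ring

/-- The rotation `(2 + i) / (2 - i)`. -/
def tau : G := jj pp / jj qq

lemma tau_ne : tau ≠ 0 := div_ne_zero jj_pp_ne jj_qq_ne

lemma norm_io_tau : ‖io tau‖ = 1 := by
  have := norm_io_rot pp_ne
  rwa [rot, star_pp] at this

lemma norm_io_tau_zpow (j : ℤ) : ‖io (tau ^ j)‖ = 1 := by
  rw [map_zpow₀, norm_zpow, norm_io_tau, one_zpow]

lemma TInv.tau_zpow {ν : Measure X} (hT : TInv ν) (j : ℤ) :
    MeasurePreserving (S (tau ^ j)) ν ν := by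
  rcases Int.eq_nat_or_neg j with ⟨n, rfl | rfl⟩
  · have := hT (pp ^ n) (pow_ne_zero _ pp_ne)
    rwa [rot, star_pow, star_pp, map_pow, map_pow, ← div_pow, ← zpow_natCast] at this
  · have := hT (qq ^ n) (pow_ne_zero _ qq_ne)
    rwa [rot, star_pow, star_qq, map_pow, map_pow, ← div_pow, ← inv_div, inv_pow, ← zpow_natCast,
      ← zpow_neg] at this

end Pool.Agent.MP_fc94d9_co

end
end

section

set_option autoImplicit false

open MeasureTheory Filter Topology Set

noncomputable section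

namespace Pool.Agent.MP_fc94d9_co

lemma S_iterate (u : G) (n : ℕ) (θ : X) : (S u)^[n] θ = S (u ^ n) θ := by
  induction n with
  | zero => simp
  | succ n ih => rw [Function.iterate_succ_apply', ih, S_S, pow_succ]

lemma LP_shift {K : Set X} {N : GaussianInt} (hN : N ≠ 0) {η : ℝ} {l k J : ℕ} {j : ℕ}
    (hj : j < 2 * J + 1)
    (h : LP K (jj N * jj pp ^ (k + 2 * J))⁻¹
      ((jj N * jj pp ^ (k + 2 * J))⁻¹ / jj qq ^ (k + 2 * J)) η l) :
    LP (S (tau ^ (-(j : ℤ))) ⁻¹' K) (jj (N * pp ^ (k + 4 * J)))⁻¹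
      ((jj (N * pp ^ (k + 4 * J)))⁻¹ / jj qq ^ k) η l := by
  have hN0 := jj_ne_zero hN
  have hp := jj_pp_ne
  have hq := jj_qq_ne
  obtain ⟨t, ht⟩ : ∃ t, 2 * J = j + t := ⟨2 * J - j, by omega⟩
  have h4 : 4 * J = 2 * j + 2 * t := by omega
  have htau : tau ^ (-(j : ℤ)) = jj qq ^ j / jj pp ^ j := by
    rw [zpow_neg, zpow_natCast, tau, div_pow, inv_div]
  refine (h.rotate (norm_io_tau_zpow _)).change ?_ ?_
  · intro ψ hψ
    refine hψ.of_eq (pp ^ t * qq ^ j) ?_
    rw [htau, ht, h4]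
    simp only [map_mul, map_pow]
    field_simp
    ring
  · intro ψ h1 h2
    refine Van.of_coprime (a := pp ^ (2 * J)) (b := qq ^ k) coprime_pp_qq.pow ?_ ?_
    · refine h2.of_eq (pp ^ j * qq ^ t) ?_
      rw [htau, ht, h4]
      simp only [map_mul, map_pow]
      field_simp
      ring
    · rw [map_pow, div_mul_cancel₀ _ (pow_ne_zero _ hq)]
      exact h1

open Classical in
lemma exists_setup (ν : Measure X) [IsFiniteMeasure ν] (hT : TInv ν) {z : GaussianInt}
    (hz : IsCoprime z qq) (hφ : phi ν (jj z) ≠ 0) :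
    ∃ (K Z : Set X) (N : GaussianInt) (η : ℝ) (l k : ℕ), ν Z ≠ 0 ∧ N ≠ 0 ∧ 0 < η ∧ η ≤ 1 / 4 ∧
      1 ≤ l ∧ 1 ≤ k ∧ 2 * (4 * l) ^ 4 ≤ 5 ^ k ∧
      LP K (jj N)⁻¹ ((jj N)⁻¹ / jj qq ^ (16 * k)) η l ∧
      ∀ θ ∈ Z, ∀ n : ℕ,
        128 * ((Finset.range n).filter (fun i => S (tau ^ (16 * k * i)) θ ∉ K)).card ≤ n := by
  obtain ⟨c, hc, hE⟩ := exists_E0 ν hT hz hφ
  have hEm := measurableSet_E0 ν c
  let A : ℕ → Set X := fun J => ⋃ i : ℤ, ⋃ (_ : |i| ≤ J), S (tau ^ i) ⁻¹' E0 ν c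
  let E' : Set X := ⋃ i : ℤ, S (tau ^ i) ⁻¹' E0 ν c
  have hAm : ∀ J, MeasurableSet (A J) := fun J =>
    MeasurableSet.iUnion fun i => MeasurableSet.iUnion fun _ => measurable_S _ hEm
  have hE'm : MeasurableSet E' := MeasurableSet.iUnion fun i => measurable_S _ hEm
  have hAmono : Monotone A := by
    intro a b hab θ hθ
    obtain ⟨i, hi, h⟩ := mem_iUnion₂.1 hθ
    exact mem_iUnion₂.2 ⟨i, hi.trans (by exact_mod_cast hab), h⟩
  have hAU : (⋃ J, A J) = E' := by
    ext θ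
    simp only [A, E', mem_iUnion]
    constructor
    · rintro ⟨J, i, _, h⟩; exact ⟨i, h⟩
    · rintro ⟨i, h⟩; exact ⟨i.natAbs, i, by simp, h⟩
  have hAsub : ∀ J, A J ⊆ E' := fun J => hAU ▸ subset_iUnion A J
  have hinv : ∀ i : ℤ, S (tau ^ i) ⁻¹' E' = E' := by
    intro i
    ext θ
    simp only [E', mem_preimage, mem_iUnion, S_S, ← zpow_add₀ tau_ne]
    constructor
    · rintro ⟨j, h⟩; exact ⟨_, h⟩
    · rintro ⟨j, h⟩; exact ⟨j - i, by rwa [add_sub_cancel]⟩
  set m := ν.real E' with hm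
  have hm0 : 0 < m := by
    have : E0 ν c ⊆ E' := fun θ hθ => mem_iUnion.2 ⟨0, by simpa using hθ⟩
    refine ENNReal.toReal_pos (fun h => hE (measure_mono_null this h)) (measure_ne_top _ _)
  have hlim : Tendsto (fun J => ν.real (A J)) atTop (𝓝 m) := by
    have := tendsto_measure_iUnion_atTop (μ := ν) hAmono
    rw [hAU] at this
    exact (ENNReal.tendsto_toReal (measure_ne_top _ _)).comp this
  obtain ⟨J, hJ⟩ := (hlim.eventually (lt_mem_nhds (show m - m / 512 < m by linarith))).exists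
  have hJ' : ν.real (E' \ A J) ≤ m / 512 := by
    rw [measureReal_sdiff (hAsub J) (hAm J)]; linarith
  set l := (2 * J + 1) * ⌈2 / c⌉₊ with hl
  have hl1 : 1 ≤ l := Nat.mul_pos (by omega) (Nat.ceil_pos.2 (by positivity))
  set k := 2 * (4 * l) ^ 4 with hk
  have hk1 : 1 ≤ k := by rw [hk]; exact Nat.mul_pos (by norm_num) (by positivity)
  obtain ⟨K0, hK0m, hK0b, N, hN, η, hη0, hη1, hLP⟩ := exists_LP ν (16 * k + 2 * J - 1) hc
    (show 0 < m / (512 * (2 * J + 1)) by positivity)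
  rw [show 16 * k + 2 * J - 1 + 1 = 16 * k + 2 * J by omega] at hLP
  let K : Set X := ⋃ j ∈ Finset.range (2 * J + 1), S (tau ^ (-(j : ℤ))) ⁻¹' K0
  have hKm : MeasurableSet K := Finset.measurableSet_biUnion _ fun j _ => measurable_S _ hK0m
  have hbad : ν.real (E' \ K) ≤ m / 256 := by
    have hsub : E' \ K ⊆ S (tau ^ (-(J : ℤ))) ⁻¹' (E' \ A J) ∪
        ⋃ j ∈ Finset.range (2 * J + 1), S (tau ^ (-(j : ℤ))) ⁻¹' (E0 ν c \ K0) := by
      rintro θ ⟨h1, h2⟩
      by_cases hA : S (tau ^ (-(J : ℤ))) θ ∈ A J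
      · right
        obtain ⟨i, hi, h⟩ := mem_iUnion₂.1 hA
        rw [mem_preimage, S_S, ← zpow_add₀ tau_ne] at h
        rw [abs_le] at hi
        have e : -(J : ℤ) + i = -(((J - i).toNat : ℕ) : ℤ) := by omega
        rw [e] at h
        have hj : (J - i).toNat ∈ Finset.range (2 * J + 1) := Finset.mem_range.2 (by omega)
        exact mem_iUnion₂.2 ⟨_, hj, h, fun h' => h2 (mem_iUnion₂.2 ⟨_, hj, h'⟩)⟩
      · left
        refine ⟨?_, hA⟩
        rw [← mem_preimage, hinv]; exact h1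
    refine (measureReal_mono hsub).trans ((measureReal_union_le _ _).trans ?_)
    rw [(hT.tau_zpow _).measureReal_preimage (hE'm.diff (hAm J)).nullMeasurableSet]
    have : ν.real (⋃ j ∈ Finset.range (2 * J + 1),
        S (tau ^ (-(j : ℤ))) ⁻¹' (E0 ν c \ K0)) ≤ m / 512 := by
      refine (measureReal_biUnion_finset_le _ _).trans ?_
      refine (Finset.sum_le_sum (g := fun _ => m / (512 * (2 * J + 1))) fun j _ => ?_).trans
        (le_of_eq ?_)
      · rw [(hT.tau_zpow _).measureReal_preimage (hEm.diff hK0m).nullMeasurableSet]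
        exact hK0b
      · simp only [Finset.sum_const, Finset.card_range, nsmul_eq_mul]
        push_cast
        field_simp
    linarith
  have hB : MeasurePreserving (S (tau ^ (16 * k))) ν ν := by
    have := hT.tau_zpow ((16 * k : ℕ) : ℤ)
    rwa [zpow_natCast] at this
  have hmax := maximal_ineq hB (hE'm.diff hKm) (show (0 : ℝ) < 1 / 128 by norm_num)
  set W := {x | ∃ n : ℕ, (1 / 128 : ℝ) * n <
    ((Finset.range n).filter (fun i => (S (tau ^ (16 * k)))^[i] x ∈ E' \ K)).card} with hW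
  have hWb : ν.real W ≤ m / 2 := by
    have h1 : ν.real W ≤ ν.real (E' \ K) / (1 / 128) := by convert hmax
    refine h1.trans ?_
    rw [div_le_iff₀ (by norm_num)]; linarith
  refine ⟨K, E' \ W, N * pp ^ (16 * k + 4 * J), η, l, k, ?_,
    mul_ne_zero (ne_zero_of_coprime hN) (pow_ne_zero _ pp_ne), hη0, hη1, hl1, hk1,
    (Nat.lt_pow_self (by norm_num)).le, ?_, ?_⟩
  · intro h0
    have h1 : ν.real E' ≤ ν.real (E' \ W) + ν.real W := by
      refine le_trans (measureReal_mono ?_) (measureReal_union_le _ _)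
      intro θ hθ
      by_cases h : θ ∈ W
      · exact Or.inr h
      · exact Or.inl ⟨hθ, h⟩
    have h2 : ν.real (E' \ W) = 0 := by simp [Measure.real, h0]
    linarith
  · exact LP.iUnion fun j hj => LP_shift (ne_zero_of_coprime hN) hj hLP
  · rintro θ ⟨h1, h2⟩ n
    have h3 : ¬ ((1 / 128 : ℝ) * n <
      ((Finset.range n).filter (fun i => (S (tau ^ (16 * k)))^[i] θ ∈ E' \ K)).card) :=
      fun h => h2 ⟨n, h⟩
    have e : (Finset.range n).filter (fun i => (S (tau ^ (16 * k)))^[i] θ ∈ E' \ K) =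
        (Finset.range n).filter (fun i => S (tau ^ (16 * k * i)) θ ∉ K) := by
      apply Finset.filter_congr
      intro i _
      rw [S_iterate, ← pow_mul]
      refine ⟨fun h => h.2, fun h => ⟨?_, h⟩⟩
      rw [← zpow_natCast, ← mem_preimage, hinv]; exact h1
    rw [e, not_lt] at h3
    have : (128 : ℝ) * ((Finset.range n).filter
      (fun i => S (tau ^ (16 * k * i)) θ ∉ K)).card ≤ n := by linarith
    exact_mod_cast this

end Pool.Agent.MP_fc94d9_co

end
end

section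

set_option autoImplicit false

open MeasureTheory Filter Topology Set

noncomputable section

namespace Pool.Agent.MP_fc94d9_co

/-- Generator of the lattice at level `n`. -/
def lev (N : GaussianInt) (k n : ℕ) : G := (jj N)⁻¹ / jj qq ^ (k * n)

/-- The residual character after removing the canonical frequency. -/
def ps (N : GaussianInt) (θ : X) : X := θ - chi (xi 0 (jj N)⁻¹ θ)

/-- The label of a character at level `n`. -/
def kap (N : GaussianInt) (k n : ℕ) (θ : X) : T × T :=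
  (ps N θ (lev N k n), ps N θ (lev N k n * IG))

lemma kap_eq_iff {N : GaussianInt} {k n : ℕ} {θ θ' : X} :
    kap N k n θ = kap N k n θ' ↔ Van (ps N θ - ps N θ') (lev N k n) := by
  simp only [kap, Prod.mk.injEq, van_iff, AddMonoidHom.sub_apply, sub_eq_zero]

lemma measurable_ps (N : GaussianInt) (z : G) : Measurable (fun θ => ps N θ z) :=
  (measurable_eval z).sub ((measurable_chi_apply z).comp (measurable_xi _ _))

lemma measurable_kap (N : GaussianInt) (k n : ℕ) : Measurable (kap N k n) :=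
  (measurable_ps N _).prodMk (measurable_ps N _)

lemma lev_succ (N : GaussianInt) (k n : ℕ) : lev N k n = lev N k (n + 1) * jj qq ^ k := by
  have hq := jj_qq_ne
  unfold lev
  field_simp
  ring

lemma lev_ne {N : GaussianInt} (hN : N ≠ 0) (k n : ℕ) : lev N k n ≠ 0 :=
  div_ne_zero (inv_ne_zero (jj_ne_zero hN)) (pow_ne_zero _ jj_qq_ne)

lemma van_lev_mono {N : GaussianInt} {k n n' : ℕ} {ψ : X} (h : n ≤ n')
    (hψ : Van ψ (lev N k n')) : Van ψ (lev N k n) := by
  induction n', h using Nat.le_induction with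
  | base => exact hψ
  | succ m _ ih => exact ih (hψ.of_eq (qq ^ k) (by rw [map_pow, lev_succ]))

lemma LP_level {K : Set X} {N : GaussianInt} (hN : N ≠ 0) {η : ℝ} {l k : ℕ}
    (h : LP K (jj N)⁻¹ ((jj N)⁻¹ / jj qq ^ k) η l) (n : ℕ) :
    LP (S (tau ^ (k * n)) ⁻¹' K) (lev N k n) (lev N k (n + 1)) η l := by
  have hN0 := jj_ne_zero hN
  have hp := jj_pp_ne
  have hq := jj_qq_ne
  have hn : ‖io (tau ^ (k * n))‖ = 1 := by rw [← zpow_natCast]; exact norm_io_tau_zpow _
  refine (h.rotate hn).change ?_ ?_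
  · intro ψ hψ
    refine hψ.of_eq (pp ^ (k * n)) ?_
    simp only [tau, lev, map_pow, div_pow]
    field_simp
  · intro ψ h1 h2
    refine Van.of_coprime (a := pp ^ (k * n)) (b := qq ^ k) coprime_pp_qq.pow ?_ ?_
    · refine h2.of_eq 1 ?_
      simp only [tau, lev, map_pow, div_pow, map_one]
      field_simp
      ring
    · rw [map_pow, ← lev_succ]; exact h1

lemma real_le_of_disjoint {Ω : Type*} [MeasurableSpace Ω] (μ : Measure Ω) [IsFiniteMeasure μ]
    (H : ℕ) (t : ℕ → Set Ω) (ht : ∀ j, MeasurableSet (t j)) {β : ℝ}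
    (hβ : ∀ j, β ≤ μ.real (t j))
    (hd : ∀ j < H, ∀ j' < H, j ≠ j' → μ (t j ∩ t j') = 0) : H * β ≤ μ.real univ := by
  have h1 := sum_measure_le_measure_univ (μ := μ) (s := Finset.range H) (t := t)
    (fun j _ => (ht j).nullMeasurableSet)
    (fun j hj j' hj' hne => hd j (by simpa using hj) j' (by simpa using hj') hne)
  have h2 := ENNReal.toReal_mono (measure_ne_top _ _) h1
  rw [ENNReal.toReal_sum (fun j _ => measure_ne_top _ _)] at h2
  refine le_trans ?_ h2
  have := Finset.card_nsmul_le_sum (Finset.range H) (fun j => (μ (t j)).toReal) β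
    (fun j _ => hβ j)
  simpa using this

lemma no_coset (ν : Measure X) [IsFiniteMeasure ν] (hT : TInv ν) (hY : ν {θ | Ycond θ} = 0)
    {N : GaussianInt} (hN : N ≠ 0) {k : ℕ} (hk : 1 ≤ k) (n0 : ℕ) (x : X) :
    ν {θ | ∀ n, n0 ≤ n → kap N k n θ = kap N k n x} = 0 := by
  set C := {θ | ∀ n, n0 ≤ n → kap N k n θ = kap N k n x} with hC
  have hCm : MeasurableSet C := by
    rw [hC, ofPred_forall]
    refine MeasurableSet.iInter fun n => ?_
    rw [ofPred_forall]
    exact MeasurableSet.iInter fun _ => measurable_kap N k n (measurableSet_singleton _)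
  have hb : ∀ H : ℕ, H * ν.real C ≤ ν.real univ := by
    intro H
    refine real_le_of_disjoint ν H (fun j => S (rot (aa j)) ⁻¹' C)
      (fun j => measurable_S _ hCm) (fun j => ?_) ?_
    · rw [(hT _ (aa_ne j)).measureReal_preimage hCm.nullMeasurableSet]
    · intro j _ j' _ hne
      refine measure_mono_null ?_ hY
      rintro θ ⟨h1, h2⟩
      refine ⟨mm j j', mm_ne hne, (xi 0 (jj N)⁻¹ (S (rot (aa j)) θ) -
        xi 0 (jj N)⁻¹ (S (rot (aa j')) θ)) / io (rot (aa j) - rot (aa j')), fun e => ?_⟩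
      have h3 := kap_eq_iff.1 ((h1 (max n0 e) (le_max_left _ _)).trans
        (h2 (max n0 e) (le_max_left _ _)).symm)
      have h4 := van_diff (rot_aa_sub_ne hne) h3
      obtain ⟨t, ht⟩ : ∃ t, k * max n0 e = e + t :=
        Nat.exists_eq_add_of_le ((le_max_right n0 e).trans (Nat.le_mul_of_pos_left _ hk))
      refine h4.of_eq (star (aa j) * star (aa j') * N * qq ^ t) ?_
      have hb0 := jj_ne_zero (star_aa_ne j)
      have hb0' := jj_ne_zero (star_aa_ne j')
      have hN0 := jj_ne_zero hN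
      have hq := jj_qq_ne
      rw [rot_aa_sub, lev, ht]
      simp only [map_mul, map_pow]
      field_simp
      ring
  have h0 : ν.real C = 0 := by
    by_contra hne
    have hpos : 0 < ν.real C := lt_of_le_of_ne measureReal_nonneg (Ne.symm hne)
    obtain ⟨H, hH⟩ := exists_nat_gt (ν.real univ / ν.real C)
    rw [div_lt_iff₀ hpos] at hH
    linarith [hb H]
  exact (measureReal_eq_zero_iff (measure_ne_top _ _)).1 h0

lemma norm_io_lev {N : GaussianInt} (hN : N ≠ 0) (k n : ℕ) :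
    ‖io (lev N (16 * k) n)‖ ≤ ((5 : ℝ) ^ (8 * k * n))⁻¹ := by
  have h1 := one_le_norm_coe hN
  have h2 : ‖(qq : ℂ)‖ ^ 2 = 5 := by rw [norm_coe_sq, norm_qq]; norm_num
  rw [lev, map_div₀, map_inv₀, map_pow, io_jj, io_jj, norm_div, norm_inv, norm_pow,
    show 16 * k * n = 2 * (8 * k * n) by ring, pow_mul, h2, div_eq_mul_inv]
  have : ‖(N : ℂ)‖⁻¹ ≤ 1 := inv_le_one_of_one_le₀ h1
  have h3 : (0 : ℝ) ≤ ((5 : ℝ) ^ (8 * k * n))⁻¹ := by positivity
  nlinarith

lemma final_count {l k n : ℕ} (h : 2 * (4 * l) ^ 4 ≤ 5 ^ k) :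
    2 ^ n * (2 ^ (2 * n) * ((2 * l) ^ (2 * n) * ((5 ^ (16 * k)) ^ 2) ^ (2 * n / 128))) ^ 2 ≤
      5 ^ (2 * k * n) := by
  set b := 2 * n / 128 with hb
  have h1 : 64 * b ≤ n := by omega
  have h2 : (((5 ^ (16 * k)) ^ 2) ^ b) ^ 2 ≤ 5 ^ (k * n) := by
    rw [← pow_mul, ← pow_mul, ← pow_mul]
    apply Nat.pow_le_pow_right (by norm_num)
    nlinarith
  have h3 : (2 * (4 * l) ^ 4) ^ n ≤ 5 ^ (k * n) := by
    rw [pow_mul]; exact Nat.pow_le_pow_left h n
  calc _ = (2 * (4 * l) ^ 4) ^ n * (((5 ^ (16 * k)) ^ 2) ^ b) ^ 2 := by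
        have : (4 * l) = 2 * (2 * l) := by ring
        rw [this]
        simp only [mul_pow, ← pow_mul]
        ring
    _ ≤ 5 ^ (k * n) * 5 ^ (k * n) := Nat.mul_le_mul h3 h2
    _ = _ := by ring

open Classical in
lemma branch_bound {K Z Bl : Set X} {N : GaussianInt} (hN : N ≠ 0) {η : ℝ} {l k : ℕ} (hl : 1 ≤ l)
    (hLP : LP K (jj N)⁻¹ ((jj N)⁻¹ / jj qq ^ k) η l)
    (hBd : ∀ x ∈ Bl, ∀ y ∈ Bl, ‖xi 0 (jj N)⁻¹ x - xi 0 (jj N)⁻¹ y‖ ≤ η)
    (hcount : ∀ θ ∈ Z, ∀ n : ℕ,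
        128 * ((Finset.range n).filter (fun i => S (tau ^ (k * i)) θ ∉ K)).card ≤ n)
    (n : ℕ) (s : Finset X) (hs : ∀ x ∈ s, x ∈ Z ∩ Bl) :
    (s.image (kap N k n)).card ≤ (2 * l) ^ n * ((5 ^ k) ^ 2) ^ (n / 128) := by
  have hN0 := jj_ne_zero hN
  refine count_branches Bl (kap N k) (fun i θ => S (tau ^ (k * i)) θ ∉ K) l ((5 ^ k) ^ 2)
    hl (Nat.one_le_pow _ _ (by positivity)) ?_ ?_ ?_ n (n / 128) s (fun x hx => (hs x hx).2) ?_
  · intro x _ y _
    rw [kap_eq_iff]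
    have : lev N k 0 = (jj N)⁻¹ := by simp [lev]
    rw [this]
    exact (van_xi 0 (inv_ne_zero hN0) x).sub (van_xi 0 (inv_ne_zero hN0) y)
  · intro n s _ h
    rcases s.eq_empty_or_nonempty with rfl | ⟨x0, hx0⟩
    · simp
    apply card_torsion_pairs _ (by positivity) _ (kap N k (n + 1) x0)
    intro a ha
    obtain ⟨x, hx, rfl⟩ := Finset.mem_image.1 ha
    have h1 := (kap_eq_iff.1 (h x hx x0 hx0)).mul (pp ^ k)
    have e : lev N k n * jj (pp ^ k) = 5 ^ k • lev N k (n + 1) := by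
      rw [lev_succ, map_pow, mul_assoc, ← mul_pow, mul_comm (jj qq), jj_pq, nsmul_eq_mul]
      push_cast; ring
    rw [e, van_iff, smul_mul_assoc, map_nsmul, map_nsmul] at h1
    exact Prod.ext h1.1 h1.2
  · intro n s hs hg h
    by_contra hlt
    rw [not_le] at hlt
    have hch : ∀ a : T × T, ∃ x, a ∈ s.image (kap N k (n + 1)) →
        x ∈ s ∧ kap N k (n + 1) x = a := by
      intro a
      by_cases ha : a ∈ s.image (kap N k (n + 1))
      · obtain ⟨x, hx, rfl⟩ := Finset.mem_image.1 ha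
        exact ⟨x, fun _ => ⟨hx, rfl⟩⟩
      · exact ⟨0, fun h => absurd h ha⟩
    choose σ hσ using hch
    obtain ⟨a, ha, a', ha', hne, hv⟩ := LP_level hN hLP n _ σ (fun a => xi 0 (jj N)⁻¹ (σ a))
      (fun a ha => not_not.1 (hg _ (hσ a ha).1))
      (fun a ha a' ha' => hBd _ (hs _ (hσ a ha).1) _ (hs _ (hσ a' ha').1))
      (fun a ha a' ha' => kap_eq_iff.1 (h _ (hσ a ha).1 _ (hσ a' ha').1)) hlt
    apply hne
    rw [← (hσ a ha).2, ← (hσ a' ha').2]
    exact kap_eq_iff.2 hv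
  · intro x hx
    rw [Nat.le_div_iff_mul_le (by norm_num), mul_comm]
    exact hcount x (hs x hx).1 n

lemma exists_heavy {Ω Λ : Type*} [MeasurableSpace Ω] [DecidableEq Λ] (ν : Measure Ω)
    [IsFiniteMeasure ν] (Z Bl : Set Ω) (hZB : Z ⊆ Bl) (hZ : ν Z ≠ 0) (κ : ℕ → Ω → Λ) (NN : ℕ → ℕ)
    (hNN : ∀ n, 0 < NN n)
    (hbr : ∀ n, ∀ s : Finset Ω, (∀ x ∈ s, x ∈ Z) → (s.image (κ n)).card ≤ NN n)
    (hnull : ∀ n0 x, ν {θ | ∀ n, n0 ≤ n → κ n θ = κ n x} = 0) (n0 : ℕ) :
    ∃ x y n, n0 ≤ n ∧ κ n x = κ n y ∧ κ (n + 1) x ≠ κ (n + 1) y ∧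
      (∀ r, ν.real Z / 2 / 2 / 2 ^ r / NN r ≤ ν.real (Bl ∩ {θ | κ r θ = κ r x})) ∧
      (∀ r, ν.real Z / 2 / 2 / 2 ^ r / NN r ≤ ν.real (Bl ∩ {θ | κ r θ = κ r y})) := by
  have hNNpos : ∀ n, (0 : ℝ) < NN n := fun n => by exact_mod_cast hNN n
  set ζ0 := ν.real Z with hζ0
  have hζ0p : 0 < ζ0 := ENNReal.toReal_pos hZ (measure_ne_top _ _)
  let Cl : ℕ → Ω → Set Ω := fun n x => Bl ∩ {θ | κ n θ = κ n x}
  let lam : ℕ → ℝ := fun n => ζ0 / 2 / 2 / 2 ^ n / NN n
  let Lt : ℕ → Set Ω := fun n => {x | x ∈ Z ∧ ν.real (Cl n x) < lam n}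
  have hLt : ∀ n, ν.real (Lt n) ≤ ζ0 / 2 / 2 / 2 ^ n := by
    intro n
    obtain ⟨s, hs, hsc, hcov⟩ := exists_cover (Lt n) (κ n) (NN n)
      (fun s hs => hbr n s (fun x hx => (hs x hx).1))
    have hsub : Lt n ⊆ ⋃ x ∈ s, Cl n x := by
      intro y hy
      obtain ⟨x, hx, h⟩ := hcov y hy
      exact mem_iUnion₂.2 ⟨x, hx, hZB hy.1, h⟩
    refine (measureReal_mono hsub (measure_ne_top _ _)).trans
      ((measureReal_biUnion_finset_le _ _).trans ?_)
    refine (Finset.sum_le_card_nsmul _ _ (lam n) (fun x hx => (hs x hx).2.le)).trans ?_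
    have h1 : (s.card : ℝ) ≤ NN n := by exact_mod_cast hsc
    have h2 : 0 ≤ lam n := by have := hNNpos n; positivity
    rw [nsmul_eq_mul]
    calc (s.card : ℝ) * lam n ≤ NN n * lam n := by gcongr
      _ = _ := by have := hNNpos n; simp only [lam]; field_simp
  have hLtU : ν.real (⋃ n, Lt n) ≤ ζ0 / 2 := by
    have h1 : ν (⋃ n, Lt n) ≤ ENNReal.ofReal (ζ0 / 2) := by
      refine (measure_iUnion_le _).trans ?_
      rw [← tsum_geometric_two' (ζ0 / 2), ENNReal.ofReal_tsum_of_nonneg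
        (fun n => by positivity) (summable_geometric_two' _)]
      refine ENNReal.tsum_le_tsum fun n => ?_
      rw [← ENNReal.ofReal_toReal (measure_ne_top ν (Lt n))]
      exact ENNReal.ofReal_le_ofReal (hLt n)
    exact ENNReal.toReal_le_of_le_ofReal (by positivity) h1
  set Z1 := Z \ ⋃ n, Lt n with hZ1
  have hZ1p : ν Z1 ≠ 0 := by
    intro h0
    have h1 : ζ0 ≤ ν.real Z1 + ν.real (⋃ n, Lt n) := by
      refine le_trans (measureReal_mono ?_) (measureReal_union_le _ _)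
      intro θ hθ
      by_cases h : θ ∈ ⋃ n, Lt n
      · exact Or.inr h
      · exact Or.inl ⟨hθ, h⟩
    have h2 : ν.real Z1 = 0 := by simp [Measure.real, h0]
    linarith
  have hheavy : ∀ x ∈ Z1, ∀ n, lam n ≤ ν.real (Cl n x) := by
    intro x hx n
    by_contra h
    exact hx.2 (mem_iUnion.2 ⟨n, hx.1, not_le.1 h⟩)
  obtain ⟨x, hx, y, hy, n, hn, hxy1, hxy2⟩ : ∃ x ∈ Z1, ∃ y ∈ Z1, ∃ n, n0 ≤ n ∧
      κ n x = κ n y ∧ κ (n + 1) x ≠ κ (n + 1) y := by
    by_contra hcon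
    push Not at hcon
    obtain ⟨s, hs, _, hcov⟩ := exists_cover Z1 (κ n0) (NN n0)
      (fun s hs => hbr n0 s (fun x hx => (hs x hx).1))
    apply hZ1p
    refine measure_mono_null (t := ⋃ x ∈ s, {θ | ∀ n, n0 ≤ n → κ n θ = κ n x}) ?_ ?_
    · intro y hy
      obtain ⟨x, hx, h⟩ := hcov y hy
      refine mem_iUnion₂.2 ⟨x, hx, fun n hn => ?_⟩
      induction n, hn using Nat.le_induction with
      | base => exact h
      | succ n hn ih => exact hcon y hy x (hs x hx) n hn ih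
    · exact (measure_biUnion_null_iff s.countable_toSet).2 fun x _ => hnull n0 x
  exact ⟨x, y, n, hn, hxy1, hxy2, hheavy x hx, hheavy y hy⟩

lemma rect_disjoint {Bl : Set X} {N : GaussianInt} (hN : N ≠ 0) {k n H : ℕ} (hk : 1 ≤ k)
    (hn3 : 3 ≤ n) (hH : H = 5 ^ (2 * k * n))
    (hBd : ∀ x ∈ Bl, ∀ y ∈ Bl, ‖xi 0 (jj N)⁻¹ x - xi 0 (jj N)⁻¹ y‖ ≤ 1 / 4) {x y : X}
    (hxy1 : kap N (16 * k) n x = kap N (16 * k) n y)
    (hxy2 : kap N (16 * k) (n + 1) x ≠ kap N (16 * k) (n + 1) y) {j j' : ℕ} (hj : j < H)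
    (hj' : j' < H) (hne : j ≠ j') {θ1 θ2 : X}
    (a1 : S (rot (aa j)) θ1 ∈ Bl) (b1 : S (rot (aa j)) θ2 ∈ Bl)
    (c1 : S (rot (aa j')) θ1 ∈ Bl) (d1 : S (rot (aa j')) θ2 ∈ Bl)
    (a2 : kap N (16 * k) (2 * n) (S (rot (aa j)) θ1) = kap N (16 * k) (2 * n) x)
    (b2 : kap N (16 * k) (2 * n) (S (rot (aa j)) θ2) = kap N (16 * k) (2 * n) y)
    (c2 : kap N (16 * k) (2 * n) (S (rot (aa j')) θ1) = kap N (16 * k) (2 * n) x)
    (d2 : kap N (16 * k) (2 * n) (S (rot (aa j')) θ2) = kap N (16 * k) (2 * n) y) : False := by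
  rw [kap_eq_iff] at a2 b2 c2 d2
  have e : ∀ u : G, S u (θ1 - θ2) - chi (xi 0 (jj N)⁻¹ (S u θ1) - xi 0 (jj N)⁻¹ (S u θ2)) =
      ps N (S u θ1) - ps N (S u θ2) := by
    intro u; rw [S_sub, chi_sub, ps, ps]; abel
  have v1 : Van (ps N (S (rot (aa j)) θ1) - ps N (S (rot (aa j)) θ2) - (ps N x - ps N y))
      (lev N (16 * k) (2 * n)) := by
    have := a2.sub b2; convert this using 1; abel
  have v2 : Van (ps N (S (rot (aa j')) θ1) - ps N (S (rot (aa j')) θ2) - (ps N x - ps N y))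
      (lev N (16 * k) (2 * n)) := by
    have := c2.sub d2; convert this using 1; abel
  have w1 := kap_eq_iff.1 hxy1
  have s1 : (H : ℝ) ^ 3 * ‖io (lev N (16 * k) (n + 1) * jj qq ^ (16 * k))‖ < 1 := by
    rw [← lev_succ]
    have h1 := norm_io_lev hN k n
    have h2 : (H : ℝ) ^ 3 < 5 ^ (8 * k * n) := by
      rw [hH]; push_cast
      rw [← pow_mul]
      apply pow_lt_pow_right₀ (by norm_num)
      nlinarith
    calc (H : ℝ) ^ 3 * ‖io (lev N (16 * k) n)‖ ≤ (H : ℝ) ^ 3 * (5 ^ (8 * k * n))⁻¹ := by gcongr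
      _ < 1 := by rw [← div_eq_mul_inv, div_lt_one (by positivity)]; exact h2
  have s2 : 4 * H ^ 4 ≤ 5 ^ (16 * k * (n - 1)) := by
    rw [hH, ← pow_mul]
    have h1 : 2 * k * n * 4 + 1 ≤ 16 * k * (n - 1) := by
      obtain ⟨t, rfl⟩ := Nat.exists_eq_add_of_le hn3
      rw [show 3 + t - 1 = 2 + t by omega]
      nlinarith
    have h2 := Nat.pow_le_pow_right (show 0 < 5 by norm_num) h1
    rw [pow_succ] at h2
    omega
  have s3 : Van (S (rot (aa j)) (θ1 - θ2) - chi (xi 0 (jj N)⁻¹ (S (rot (aa j)) θ1) -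
      xi 0 (jj N)⁻¹ (S (rot (aa j)) θ2))) (lev N (16 * k) (n + 1) * jj qq ^ (16 * k)) := by
    rw [← lev_succ, e]
    have := (van_lev_mono (show n ≤ 2 * n by omega) v1).add w1
    convert this using 1; abel
  have e2 : lev N (16 * k) (n + 1) / jj qq ^ (16 * k * (n - 1)) = lev N (16 * k) (2 * n) := by
    unfold lev
    rw [div_div, ← pow_add, ← mul_add, show n + 1 + (n - 1) = 2 * n by omega]
  have hkey := key_disjoint (θ := θ1 - θ2) (lev_ne hN _ _)
    (hBd _ a1 _ b1) (hBd _ c1 _ d1) hj hj' hne s1 s2 s3 (by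
      rw [e, e, e2]
      have := v1.sub v2
      convert this using 1; abel)
  apply hxy2
  rw [e] at hkey
  rw [kap_eq_iff]
  have := hkey.sub (van_lev_mono (show n + 1 ≤ 2 * n by omega) v1)
  convert this using 1; abel

theorem rigid_coprime (ν : Measure X) [IsFiniteMeasure ν] (hT : TInv ν)
    (hY : ν {θ | Ycond θ} = 0) {z : GaussianInt} (hz : IsCoprime z qq) : phi ν (jj z) = 0 := by
  classical
  by_contra hφ
  obtain ⟨K, Z, N, η, l, k, hZ, hN, hη0, hη1, hl, hk, hkl, hLP, hcount⟩ :=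
    exists_setup ν hT hz hφ
  obtain ⟨ζ, hζ⟩ : ∃ ζ : ℂ, ν (Z ∩ {θ | ‖xi 0 (jj N)⁻¹ θ - ζ‖ ≤ η / 2}) ≠ 0 := by
    by_contra hcon
    push Not at hcon
    apply hZ
    refine measure_mono_null ?_ (measure_iUnion_null
      (fun n => hcon (TopologicalSpace.denseSeq ℂ n)))
    intro θ hθ
    obtain ⟨n, hn⟩ := Metric.denseRange_iff.1 (TopologicalSpace.denseRange_denseSeq ℂ)
      (xi 0 (jj N)⁻¹ θ) (η / 2) (by positivity)
    exact mem_iUnion.2 ⟨n, hθ, by rw [mem_ofPred_eq, ← dist_eq_norm]; exact hn.le⟩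
  set Bl := {θ | ‖xi 0 (jj N)⁻¹ θ - ζ‖ ≤ η / 2} with hBl
  have hBlm : MeasurableSet Bl :=
    measurableSet_le ((measurable_xi _ _).sub_const ζ).norm measurable_const
  have hBd : ∀ x ∈ Bl, ∀ y ∈ Bl, ‖xi 0 (jj N)⁻¹ x - xi 0 (jj N)⁻¹ y‖ ≤ η := by
    intro x hx y hy
    have := norm_sub_le_norm_sub_add_norm_sub (xi 0 (jj N)⁻¹ x) ζ (xi 0 (jj N)⁻¹ y)
    have h1 : ‖xi 0 (jj N)⁻¹ x - ζ‖ ≤ η / 2 := hx
    have h2 : ‖xi 0 (jj N)⁻¹ y - ζ‖ ≤ η / 2 := hy
    rw [norm_sub_rev] at h2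
    linarith
  obtain ⟨NN, hNN⟩ : ∃ NN : ℕ → ℕ, ∀ n, NN n = (2 * l) ^ n * ((5 ^ (16 * k)) ^ 2) ^ (n / 128) :=
    ⟨_, fun _ => rfl⟩
  have hNNp : ∀ n, 0 < NN n := by intro n; rw [hNN]; positivity
  have hζ0p : 0 < ν.real (Z ∩ Bl) := ENNReal.toReal_pos hζ (measure_ne_top _ _)
  obtain ⟨n1, hn1⟩ : ∃ n1 : ℕ, 16 * (ν.real univ * ν.real univ) / ν.real (Z ∩ Bl) ^ 2 < 2 ^ n1 :=
    pow_unbounded_of_one_lt _ one_lt_two
  obtain ⟨x, y, n, hn, hxy1, hxy2, hx, hy⟩ := exists_heavy ν (Z ∩ Bl) Bl inter_subset_right hζ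
    (kap N (16 * k)) NN hNNp
    (fun n s hs => by rw [hNN]; exact branch_bound hN hl hLP hBd hcount n s hs)
    (fun n0 x => no_coset ν hT hY hN (by omega) n0 x) (max n1 3)
  have hn3 : 3 ≤ n := (le_max_right _ _).trans hn
  have hnn1 : n1 ≤ n := (le_max_left _ _).trans hn
  obtain ⟨H, hH⟩ : ∃ H : ℕ, H = 5 ^ (2 * k * n) := ⟨_, rfl⟩
  have hClm : ∀ x, MeasurableSet (Bl ∩ {θ | kap N (16 * k) (2 * n) θ = kap N (16 * k) (2 * n) x}) :=
    fun x => hBlm.inter (measurableSet_eq_fun (measurable_kap N (16 * k) (2 * n)) measurable_const)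
  have hp : (0 : ℝ) < NN (2 * n) := by exact_mod_cast hNNp (2 * n)
  have hf' : (2 : ℝ) ^ n * (2 ^ (2 * n) * (NN (2 * n) : ℝ)) ^ 2 ≤ H := by
    have hf := final_count (n := n) hkl
    rw [← hNN (2 * n), ← hH] at hf
    exact_mod_cast hf
  generalize ν.real (Z ∩ Bl) = ζ0 at hx hy hn1 hζ0p
  have hmain := real_le_of_disjoint (ν.prod ν) H
    (fun j => (S (rot (aa j)) ⁻¹'
        (Bl ∩ {θ | kap N (16 * k) (2 * n) θ = kap N (16 * k) (2 * n) x})) ×ˢ
      (S (rot (aa j)) ⁻¹' (Bl ∩ {θ | kap N (16 * k) (2 * n) θ = kap N (16 * k) (2 * n) y})))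
    (fun j => (measurable_S _ (hClm _)).prod (measurable_S _ (hClm _)))
    (β := (ζ0 / 2 / 2 / 2 ^ (2 * n) / NN (2 * n)) ^ 2) ?_ ?_
  · rw [← univ_prod_univ, measureReal_prod_prod] at hmain
    have e : (2 : ℝ) ^ n * (2 ^ (2 * n) * (NN (2 * n) : ℝ)) ^ 2 *
        (ζ0 / 2 / 2 / 2 ^ (2 * n) / NN (2 * n)) ^ 2 = 2 ^ n * ζ0 ^ 2 / 16 := by
      field_simp; ring
    have h1 : (2 : ℝ) ^ n * ζ0 ^ 2 / 16 ≤ ν.real univ * ν.real univ := by
      rw [← e]; refine le_trans ?_ hmain; gcongr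
    have h2 : (2 : ℝ) ^ n1 ≤ 2 ^ n := pow_le_pow_right₀ one_le_two hnn1
    rw [div_lt_iff₀ (by positivity)] at hn1
    have h3 : (2 : ℝ) ^ n1 * ζ0 ^ 2 ≤ 2 ^ n * ζ0 ^ 2 := by gcongr
    linarith
  · intro j
    rw [measureReal_prod_prod, (hT _ (aa_ne j)).measureReal_preimage (hClm _).nullMeasurableSet,
      (hT _ (aa_ne j)).measureReal_preimage (hClm _).nullMeasurableSet, sq]
    exact mul_le_mul (hx _) (hy _) (by positivity) measureReal_nonneg
  · intro j hj j' hj' hne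
    refine measure_mono_null (t := ∅) ?_ measure_empty
    rintro ⟨θ1, θ2⟩ ⟨⟨⟨a1, a2⟩, ⟨b1, b2⟩⟩, ⟨⟨c1, c2⟩, ⟨d1, d2⟩⟩⟩
    exact rect_disjoint hN hk hn3 hH (fun x hx y hy => (hBd x hx y hy).trans hη1) hxy1 hxy2
      hj hj' hne a1 b1 c1 d1 a2 b2 c2 d2

theorem rigid (ν : Measure X) [IsFiniteMeasure ν] (hT : TInv ν)
    (hY : ν {θ | Ycond θ} = 0) {z : GaussianInt} (hz : z ≠ 0) : phi ν (jj z) = 0 := by
  obtain ⟨v, g, rfl, hg, _⟩ := exists_factor_qq hz
  have h1 := rigid_coprime ν hT hY (coprime_pp_qq.pow_left (m := v).mul_left hg)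
  rw [← phi_mul (hT (pp ^ v) (pow_ne_zero _ pp_ne)), ← h1]
  congr 1
  have hq := jj_qq_ne
  simp only [rot, star_pow, star_pp, map_mul, map_pow]
  field_simp

end Pool.Agent.MP_fc94d9_co

end
end

section

set_option autoImplicit false

open MeasureTheory Filter Topology Set

noncomputable section

namespace Pool.Agent.MP_fc94d9_co

lemma exists_rotation (M : ℕ) (hM : 1 ≤ M) :
    ∃ w : G, ‖io w‖ = 1 ∧ (M : G) * w ^ 2 - w + M = 0 := by
  have hM' : (1 : ℝ) ≤ M := by exact_mod_cast hM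
  set r := Real.sqrt (4 * (M : ℝ) ^ 2 - 1) with hr
  have hr2 : r ^ 2 = 4 * (M : ℝ) ^ 2 - 1 := Real.sq_sqrt (by nlinarith)
  set x : ℂ := ⟨1 / (2 * M), r / (2 * M)⟩ with hx
  have hM0 : (M : ℝ) ≠ 0 := by linarith
  have heq : (M : ℂ) * x ^ 2 - x + M = 0 := by
    apply Complex.ext
    · simp [hx, sq]; field_simp; nlinarith
    · simp [hx, sq]; field_simp; ring
  have halg : IsAlgebraic ℚ x := by
    refine ⟨Polynomial.C (M : ℚ) * Polynomial.X ^ 2 - Polynomial.X + Polynomial.C (M : ℚ), ?_, ?_⟩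
    · intro h
      have := congrArg (fun p => Polynomial.coeff p 1) h
      simp at this
    · simpa using heq
  obtain ⟨w, hw⟩ := exists_io_eq halg
  refine ⟨w, ?_, io_inj ?_⟩
  · rw [hw]
    have : ‖x‖ ^ 2 = 1 := by
      rw [← Complex.normSq_eq_norm_sq, Complex.normSq_apply]
      simp only [hx]; field_simp; nlinarith
    nlinarith [norm_nonneg x]
  · simpa [hw] using heq

lemma pow_relation {M : ℕ} {u : G} (hu : (M : G) * u ^ 2 - u + M = 0) (n : ℕ) :
    ∃ a b : ℤ, (M : G) ^ n * u ^ (n + 1) = (1 + M * a) * u + M * b := by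
  induction n with
  | zero => exact ⟨0, 0, by simp⟩
  | succ n ih =>
    obtain ⟨a, b, h⟩ := ih
    refine ⟨a + M * b, -(1 + M * a), ?_⟩
    push_cast
    linear_combination (M * u) * h + (1 + M * a) * hu

lemma three_relation {M : ℕ} (hM : 1 ≤ M) {w : G} (hw : (M : G) * w ^ 2 - w + M = 0) (θ : X)
    (z : G) {i j k : ℕ} (hij : i < j) (hjk : j < k) (hi : M • θ (w ^ i * z) = 0)
    (hj : M • θ (w ^ j * z) = 0) (hk : M • θ (w ^ k * z) = 0) : θ (w ^ j * z) = 0 := by
  have hM0 : (M : G) ≠ 0 := by exact_mod_cast (by omega : M ≠ 0)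
  have hw0 : w ≠ 0 := by rintro rfl; simp [hM0] at hw
  have hw' : (M : G) * w⁻¹ ^ 2 - w⁻¹ + M = 0 := by field_simp; linear_combination hw
  obtain ⟨s, rfl⟩ := Nat.exists_eq_add_of_lt hij
  obtain ⟨t, rfl⟩ := Nat.exists_eq_add_of_lt hjk
  obtain ⟨a, b, h1⟩ := pow_relation hw t
  obtain ⟨a', b', h2⟩ := pow_relation hw' s
  have h3 : (M : G) * (w + w⁻¹) = 1 := by field_simp; linear_combination hw
  have h4 : w ^ i = w ^ (i + s + 1) * w⁻¹ ^ (s + 1) := by
    rw [inv_pow, add_assoc, pow_add, mul_assoc, mul_inv_cancel₀ (pow_ne_zero _ hw0), mul_one]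
  have h5 : w ^ (i + s + 1 + t + 1) = w ^ (i + s + 1) * w ^ (t + 1) := by ring
  have key : w ^ (i + s + 1) * z =
      ((1 + M * a') * M ^ t : ℤ) • (M • (w ^ (i + s + 1 + t + 1) * z)) +
      ((1 + M * a) * M ^ s : ℤ) • (M • (w ^ i * z)) -
      (a + a' + M * a * a' + M * (b * (1 + M * a') + b' * (1 + M * a)) : ℤ) •
        (M • (w ^ (i + s + 1) * z)) := by
    rw [h5]
    conv_rhs => rw [h4]
    simp only [zsmul_eq_mul, nsmul_eq_mul]
    push_cast
    have h4' : w ^ (i + s + 1) * w⁻¹ ^ (s + 1) * w ^ (s + 1) = w ^ (i + s + 1) := by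
      rw [mul_assoc, ← mul_pow, inv_mul_cancel₀ hw0, one_pow, mul_one]
    generalize w ^ (i + s + 1) = y at *
    linear_combination (-(y * z * M * (1 + M * a'))) * h1 - (y * z * M * (1 + M * a)) * h2 -
      (y * z * (1 + M * a) * (1 + M * a')) * h3
  rw [key, map_sub, map_add, map_zsmul, map_zsmul, map_zsmul, map_nsmul, map_nsmul, map_nsmul,
    hi, hj, hk]
  simp

/-- Invariance under all rotations in `G`. -/
def UInv (ν : Measure X) : Prop := ∀ u : G, ‖io u‖ = 1 → MeasurePreserving (S u) ν ν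

lemma UInv.tInv {ν : Measure X} (h : UInv ν) : TInv ν := fun _ ha => h _ (norm_io_rot ha)

lemma atom_lemma (ν : Measure X) [IsFiniteMeasure ν] (hU : UInv ν) (M : ℕ) (hM : 1 ≤ M) (z : G) :
    ν {θ | M • θ z = 0 ∧ θ z ≠ 0} = 0 := by
  classical
  obtain ⟨w, hw1, hw⟩ := exists_rotation M hM
  set A := {θ : X | M • θ z = 0 ∧ θ z ≠ 0} with hA
  have hAm : MeasurableSet A :=
    (((measurable_eval z).const_smul M) (measurableSet_singleton 0)).inter
      ((measurable_eval z) (measurableSet_singleton 0)).compl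
  have hb : ∀ H : ℕ, H * ν.real A ≤ 2 * ν.real univ := by
    intro H
    have h1 : ∀ θ : X, ∑ j ∈ Finset.range H, (S (w ^ j) ⁻¹' A).indicator (1 : X → ℝ) θ ≤ 2 := by
      intro θ
      have e : ∑ j ∈ Finset.range H, (S (w ^ j) ⁻¹' A).indicator (1 : X → ℝ) θ =
          ((Finset.range H).filter (fun j => θ ∈ S (w ^ j) ⁻¹' A)).card := by
        rw [Finset.card_filter]; push_cast
        refine Finset.sum_congr rfl fun j _ => ?_
        by_cases h : θ ∈ S (w ^ j) ⁻¹' A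
        · rw [indicator_of_mem h, if_pos h]; rfl
        · rw [indicator_of_notMem h, if_neg h]
      rw [e]
      have : ((Finset.range H).filter (fun j => θ ∈ S (w ^ j) ⁻¹' A)).card ≤ 2 := by
        by_contra hlt
        obtain ⟨a, ha, b, hb, c, hc, h1, h2, h3⟩ := Finset.two_lt_card.1 (not_le.1 hlt)
        have ha' : M • θ (w ^ a * z) = 0 ∧ θ (w ^ a * z) ≠ 0 := (Finset.mem_filter.1 ha).2
        have hb' : M • θ (w ^ b * z) = 0 ∧ θ (w ^ b * z) ≠ 0 := (Finset.mem_filter.1 hb).2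
        have hc' : M • θ (w ^ c * z) = 0 ∧ θ (w ^ c * z) ≠ 0 := (Finset.mem_filter.1 hc).2
        rcases lt_or_gt_of_ne h1 with p1 | p1 <;> rcases lt_or_gt_of_ne h2 with p2 | p2 <;>
          rcases lt_or_gt_of_ne h3 with p3 | p3
        · exact hb'.2 (three_relation hM hw θ z p1 p3 ha'.1 hb'.1 hc'.1)
        · exact hc'.2 (three_relation hM hw θ z p2 p3 ha'.1 hc'.1 hb'.1)
        · omega
        · exact ha'.2 (three_relation hM hw θ z p2 p1 hc'.1 ha'.1 hb'.1)
        · exact ha'.2 (three_relation hM hw θ z p1 p2 hb'.1 ha'.1 hc'.1)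
        · omega
        · exact hc'.2 (three_relation hM hw θ z p3 p2 hb'.1 hc'.1 ha'.1)
        · exact hb'.2 (three_relation hM hw θ z p3 p1 hc'.1 hb'.1 ha'.1)
      exact_mod_cast this
    have hm : ∀ j, MeasurableSet (S (w ^ j) ⁻¹' A) := fun j => measurable_S _ hAm
    have hi : ∀ j ∈ Finset.range H, Integrable ((S (w ^ j) ⁻¹' A).indicator (1 : X → ℝ)) ν :=
      fun j _ => (integrable_const 1).indicator (hm j)
    have h2 := integral_mono (integrable_finsetSum _ hi) (integrable_const (2 : ℝ)) h1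
    rw [integral_finsetSum _ hi, integral_const] at h2
    have h3 : ∀ j ∈ Finset.range H, ∫ θ, (S (w ^ j) ⁻¹' A).indicator (1 : X → ℝ) θ ∂ν =
        ν.real A := by
      intro j _
      rw [integral_indicator_one (hm j), (hU _ (by rw [map_pow, norm_pow, hw1, one_pow])
        ).measureReal_preimage hAm.nullMeasurableSet]
    rw [Finset.sum_congr rfl h3] at h2
    simpa [mul_comm] using h2
  have h0 : ν.real A = 0 := by
    by_contra hne
    have hpos : 0 < ν.real A := lt_of_le_of_ne measureReal_nonneg (Ne.symm hne)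
    obtain ⟨H, hH⟩ := exists_nat_gt (2 * ν.real univ / ν.real A)
    rw [div_lt_iff₀ hpos] at hH
    linarith [hb H]
  exact (measureReal_eq_zero_iff (measure_ne_top _ _)).1 h0

end Pool.Agent.MP_fc94d9_co

end
end

section

set_option autoImplicit false

open MeasureTheory Filter Topology Set
open scoped Nat

noncomputable section

namespace Pool.Agent.MP_fc94d9_co

/-- `m / (2 - i) ^ e`. -/
def gam (m e : ℕ) : G := (m : G) / jj qq ^ e

/-- The frequency of a structured character. -/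
def Xi (m : ℕ) (θ : X) : ℂ := limUnder atTop (fun e => xi (-(1 / 2)) (gam m e) θ)

lemma measurable_Xi (m : ℕ) : Measurable (Xi m) :=
  (StronglyMeasurable.limUnder (fun e => (measurable_xi _ (gam m e)).stronglyMeasurable)).measurable

/-- Characters that are continuous on `m ℤ[i][1/(2-i)]`. -/
def Ym (m : ℕ) : Set X := {θ | ∀ e, Van (θ - chi (Xi m θ)) (gam m e)}

lemma measurable_resid (m : ℕ) (z : G) : Measurable (fun θ : X => (θ - chi (Xi m θ)) z) :=
  (measurable_eval z).sub ((measurable_chi_apply z).comp (measurable_Xi m))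

lemma measurableSet_Ym (m : ℕ) : MeasurableSet (Ym m) := by
  rw [Ym, ofPred_forall]
  exact MeasurableSet.iInter fun e => measurableSet_van (measurable_resid m) _

lemma xi_eq {θ : X} {ξ : ℂ} {γ : G} (hγ : γ ≠ 0) (h : Van (θ - chi ξ) γ)
    (hn : ‖ξ‖ * ‖io γ‖ < 1 / 2) : xi (-(1 / 2)) γ θ = ξ := by
  obtain ⟨h1, h2⟩ := van_iff.1 h
  rw [AddMonoidHom.sub_apply, sub_eq_zero, chi_apply] at h1 h2
  have hb : ‖ξ * io γ‖ < 1 / 2 := by rwa [norm_mul]
  have e2 : (ξ * io (γ * IG)).re = -(ξ * io γ).im := by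
    rw [map_mul, io_IG, ← mul_assoc]; simp
  have b1 := abs_lt.1 ((Complex.abs_re_le_norm _).trans_lt hb)
  have b2 := abs_lt.1 ((Complex.abs_im_le_norm _).trans_lt hb)
  rw [xi, h1, h2, e2, L_coe ⟨by linarith [b1.1], by linarith [b1.2]⟩,
    L_coe ⟨by linarith [b2.2], by linarith [b2.1]⟩, div_eq_iff (io_ne_zero hγ)]
  apply Complex.ext <;> simp

lemma Xi_eq {m : ℕ} (hm : m ≠ 0) {θ : X} {ξ : ℂ} (h : ∀ e, Van (θ - chi ξ) (gam m e)) :
    Xi m θ = ξ := by
  have h2 : ‖(qq : ℂ)‖ ^ 2 = 5 := by rw [norm_coe_sq, norm_qq]; norm_num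
  have h3 : 1 < ‖(qq : ℂ)‖ := by nlinarith [norm_nonneg (qq : ℂ)]
  have hlim : Tendsto (fun e => ‖ξ‖ * ‖io (gam m e)‖) atTop (𝓝 0) := by
    have := (tendsto_pow_atTop_atTop_of_one_lt h3).const_div_atTop (‖ξ‖ * m)
    refine this.congr fun e => ?_
    rw [gam, map_div₀, map_pow, io_jj, norm_div, norm_pow, map_natCast, Complex.norm_natCast]
    ring
  apply Tendsto.limUnder_eq
  refine tendsto_const_nhds.congr' ?_
  filter_upwards [hlim.eventually (gt_mem_nhds (show (0 : ℝ) < 1 / 2 by norm_num))] with e he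
  exact (xi_eq (div_ne_zero (by exact_mod_cast hm) (pow_ne_zero _ jj_qq_ne)) (h e) he).symm

lemma mem_Ym {m : ℕ} (hm : m ≠ 0) {θ : X} {ξ : ℂ} (h : ∀ e, Van (θ - chi ξ) (gam m e)) :
    θ ∈ Ym m := by
  intro e; rw [Xi_eq hm h]; exact h e

lemma Ym_mono : Monotone (fun n : ℕ => Ym n !) := by
  intro a b hab θ hθ
  obtain ⟨c, hc⟩ := Nat.factorial_dvd_factorial hab
  refine mem_Ym (Nat.factorial_ne_zero b) (ξ := Xi a ! θ) fun e => (hθ e).of_eq c ?_
  rw [gam, gam, hc, map_natCast]; push_cast; ring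

lemma iUnion_Ym : (⋃ n : ℕ, Ym n !) = {θ | Ycond θ} := by
  ext θ
  simp only [mem_iUnion, mem_ofPred_eq]
  constructor
  · rintro ⟨n, h⟩
    refine ⟨(n ! : ℕ), by exact_mod_cast Nat.factorial_ne_zero n, Xi n ! θ, fun e => ?_⟩
    rw [map_natCast]; exact h e
  · rintro ⟨m, hm, ξ, h⟩
    have hpos : 0 < m.norm.natAbs := Int.natAbs_pos.2 (GaussianInt.norm_pos.2 hm).ne'
    obtain ⟨c, hc⟩ := Nat.dvd_factorial hpos le_rfl
    refine ⟨m.norm.natAbs, mem_Ym (Nat.factorial_ne_zero _) (ξ := ξ)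
      fun e => (h e).of_eq (star m * c) ?_⟩
    have e1 : ((m.norm.natAbs : ℕ) : GaussianInt) = m * star m := by
      rw [← Zsqrtd.norm_eq_mul_conj, ← Int.cast_natCast,
        Int.natAbs_of_nonneg (GaussianInt.norm_nonneg m)]
    have e2 : ((m.norm.natAbs : ℕ) : G) = jj m * jj (star m) := by
      rw [← map_mul, ← e1, map_natCast]
    rw [gam, hc, Nat.cast_mul, e2, map_mul, map_natCast]; ring

lemma measurableSet_Y : MeasurableSet {θ | Ycond θ} :=
  iUnion_Ym ▸ MeasurableSet.iUnion fun _ => measurableSet_Ym _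

lemma Ycond.rot {θ : X} (h : Ycond θ) {a : GaussianInt} (ha : a ≠ 0) : Ycond (S (rot a) θ) := by
  obtain ⟨m, hm, ξ, h⟩ := h
  have hs : star a ≠ 0 := by simpa using ha
  refine ⟨m * star a, mul_ne_zero hm hs, ξ * io (MP_fc94d9_co.rot a), fun e => ?_⟩
  rw [← S_chi, ← S_sub, van_S]
  refine (h e).of_eq a ?_
  have := jj_ne_zero hs
  rw [MP_fc94d9_co.rot, map_mul]; field_simp

lemma TInv.restrict_compl {ν : Measure X} (hT : TInv ν) : TInv (ν.restrict {θ | Ycond θ}ᶜ) := by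
  intro a ha
  have hs : star a ≠ 0 := by simpa using ha
  have e : S (rot a) ⁻¹' {θ | Ycond θ}ᶜ = {θ | Ycond θ}ᶜ := by
    rw [preimage_compl]
    congr 1
    ext θ
    refine ⟨fun h => ?_, fun h => Ycond.rot h ha⟩
    have := Ycond.rot h hs
    have h1 := jj_ne_zero ha
    have h2 := jj_ne_zero hs
    have e : rot a * rot (star a) = 1 := by rw [rot, rot, star_star]; field_simp
    rwa [S_S, e, S_one] at this
  have := (hT a ha).restrict_preimage measurableSet_Y.compl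
  rwa [e] at this

lemma Ym_tau {m : ℕ} (hm : m ≠ 0) {θ : X} (h : θ ∈ Ym m) (n : ℕ) :
    S (tau ^ n) θ ∈ Ym m ∧ Xi m (S (tau ^ n) θ) = Xi m θ * io (tau ^ n) := by
  have : ∀ e, Van (S (tau ^ n) θ - chi (Xi m θ * io (tau ^ n))) (gam m e) := by
    intro e
    rw [← S_chi, ← S_sub, van_S]
    refine (h (e + n)).of_eq (pp ^ n) ?_
    have := jj_qq_ne
    simp only [tau, gam, map_pow, div_pow]
    field_simp
    ring
  exact ⟨mem_Ym hm this, Xi_eq hm this⟩

lemma exists_period {m : ℕ} (hm : m ≠ 0) : ∃ r s : ℕ, 0 < r ∧ ∃ w : GaussianInt,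
    tau ^ r * tau ^ s = tau ^ s + gam m (2 * s + r) * jj w := by
  have : NeZero m := ⟨hm⟩
  obtain ⟨a, b, hab, h⟩ := Finite.exists_ne_map_eq_of_infinite
    (fun t : ℕ => ((((pp ^ t).re : ℤ) : ZMod m), (((pp ^ t).im : ℤ) : ZMod m)))
  wlog hlt : a < b generalizing a b
  · exact this b a hab.symm h.symm (by omega)
  obtain ⟨r, rfl⟩ := Nat.exists_eq_add_of_le hlt.le
  simp only [Prod.mk.injEq, ZMod.intCast_eq_intCast_iff_dvd_sub] at h
  obtain ⟨⟨c, hc⟩, ⟨d, hd⟩⟩ := h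
  have h1 : pp ^ (a + r) = pp ^ a + m * ⟨c, d⟩ := by
    ext <;> simp <;> linarith
  have h2 : qq ^ (a + r) = qq ^ a + m * star ⟨c, d⟩ := by
    have := congrArg star h1
    simpa [star_pp, mul_comm] using this
  refine ⟨r, a, by omega, qq ^ a * ⟨c, d⟩ - pp ^ a * star ⟨c, d⟩, ?_⟩
  have h1' := congrArg jj h1
  have h2' := congrArg jj h2
  simp only [map_add, map_mul, map_pow, map_natCast, pow_add] at h1' h2'
  have hq := jj_qq_ne
  simp only [tau, gam, div_pow, map_sub, map_mul, map_pow, pow_add, two_mul]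
  field_simp
  linear_combination (jj qq ^ a) * h1' - (jj pp ^ a) * h2'

lemma tau_pow_ne_one {n : ℕ} (hn : 0 < n) : io tau ^ n ≠ 1 := by
  intro h
  have h1 : tau ^ n = 1 := io_inj (by simpa using h)
  rw [tau, div_pow, div_eq_one_iff_eq (pow_ne_zero _ jj_qq_ne), ← map_pow, ← map_pow] at h1
  have h2 := jj_inj h1
  have h3 : IsCoprime (pp ^ n) qq := coprime_pp_qq.pow_left
  rw [h2] at h3
  obtain ⟨k, rfl⟩ := Nat.exists_eq_add_of_lt hn
  rw [pow_succ] at h3
  exact irreducible_qq.not_isUnit (isCoprime_self.1 h3.of_mul_left_right)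

lemma restrict_preserving {Ω : Type*} [MeasurableSpace Ω] {ν : Measure Ω} [IsFiniteMeasure ν]
    {f : Ω → Ω} (hf : MeasurePreserving f ν ν) {A : Set Ω} (hA : MeasurableSet A)
    (h : A ⊆ f ⁻¹' A) : MeasurePreserving f (ν.restrict A) (ν.restrict A) := by
  have h1 : A =ᵐ[ν] f ⁻¹' A := ae_eq_of_subset_of_measure_ge h
    (hf.measure_preimage hA.nullMeasurableSet).le hA.nullMeasurableSet (measure_ne_top _ _)
  have := hf.restrict_preimage hA
  rwa [← Measure.restrict_congr_set h1] at this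

lemma integral_comp_eq {μ : Measure X} {f : X → X} (hf : MeasurePreserving f μ μ) {F : X → ℂ}
    (hF : Measurable F) : ∫ θ, F (f θ) ∂μ = ∫ θ, F θ ∂μ := by
  have := integral_map (μ := μ) hf.measurable.aemeasurable (f := F) hF.aestronglyMeasurable
  rw [hf.map_eq] at this
  exact this.symm

lemma moving_bound (ν : Measure X) [IsFiniteMeasure ν] (hT : TInv ν) {m : ℕ} (hm : m ≠ 0)
    (z : GaussianInt) :
    ‖phi (ν.restrict (Ym m ∩ {θ | Xi m θ ≠ 0})) (jj z)‖ ≤
      ∫ θ in Ym m ∩ {θ | Xi m θ ≠ 0}, ‖BB ((‖Xi m θ‖ * ‖(z : ℂ)‖ : ℝ) : ℂ)‖ ∂ν := by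
  set Y1 := Ym m ∩ {θ | Xi m θ ≠ 0} with hY1
  have hY1m : MeasurableSet Y1 :=
    (measurableSet_Ym m).inter ((measurable_Xi m) (measurableSet_singleton 0)).compl
  set μ := ν.restrict Y1 with hμ
  have hpres : ∀ n : ℕ, MeasurePreserving (S (tau ^ n)) μ μ := by
    intro n
    have := hT.tau_zpow (n : ℤ)
    rw [zpow_natCast] at this
    refine restrict_preserving this hY1m fun θ hθ => ?_
    obtain ⟨h1, h2⟩ := Ym_tau hm hθ.1 n
    refine ⟨h1, ?_⟩
    rw [mem_ofPred_eq, h2]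
    exact mul_ne_zero hθ.2 (io_ne_zero (pow_ne_zero _ tau_ne))
  obtain ⟨r, s, hr, w, hw⟩ := exists_period hm
  set g : X → ℂ := fun θ => E ((θ - chi (Xi m θ)) (tau ^ s * jj z)) with hg
  have hgm : Measurable g := continuous_E.measurable.comp (measurable_resid m _)
  have hg1 : ∀ θ, ‖g θ‖ = 1 := fun θ => norm_E _
  have hFm : ∀ x : ℂ, Measurable (fun θ => g θ * wv (Xi m θ * x)) := fun x =>
    hgm.mul (continuous_wv.measurable.comp ((measurable_Xi m).mul_const x))
  set h : ℂ → ℂ := fun x => ∫ θ, g θ * wv (Xi m θ * x) ∂μ with hh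
  have hc : Continuous h := by
    refine continuous_of_dominated (bound := fun _ => 1) (fun x => (hFm x).aestronglyMeasurable)
      (fun x => Eventually.of_forall fun θ => by simp [hg1]) (integrable_const _)
      (Eventually.of_forall fun θ => continuous_const.mul (continuous_wv.comp (by fun_prop)))
  have hinv : ∀ x, h (io (tau ^ r) * x) = h x := by
    intro x
    simp only [hh]
    rw [← integral_comp_eq (hpres r) (hFm x)]
    apply integral_congr_ae
    filter_upwards [ae_restrict_mem hY1m] with θ hθ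
    obtain ⟨h1, h2⟩ := Ym_tau hm hθ.1 r
    simp only [hg]
    rw [h2, ← S_chi, ← S_sub, S_apply, ← mul_assoc (tau ^ r), hw, add_mul, map_add, mul_assoc,
      mul_assoc, ← map_mul, hθ.1 _ _, add_zero]
  have hrad := radial_of_irrational hc (u := io (tau ^ r))
    (by rw [← zpow_natCast]; exact norm_io_tau_zpow _)
    (fun n hn => by rw [map_pow, ← pow_mul]; exact tau_pow_ne_one (Nat.mul_pos hr hn)) hinv
  set x := io (tau ^ s * jj z) with hx
  have e1 : phi μ (jj z) = h x := by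
    rw [← phi_mul (hpres s)]
    simp only [phi, hh, hg, wv]
    congr 1
    funext θ
    rw [← E_add, hx, ← chi_apply]
    simp
  have e2 : h x = ∫ t : T, h (x * E t) := by
    simp [hrad, Measure.real]
  have e3 : ∫ t : T, h (x * E t) = ∫ θ, g θ * BB (Xi m θ * x) ∂μ := by
    simp only [hh]
    rw [integral_integral_swap]
    · simp only [integral_const_mul, BB, mul_assoc]
    · refine integrable_of_bdd (Measurable.aestronglyMeasurable ?_) 1 ?_
      · refine (hgm.comp measurable_snd).mul (continuous_wv.measurable.comp ?_)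
        exact ((measurable_Xi m).comp measurable_snd).mul
          ((continuous_E.measurable.comp measurable_fst).const_mul x)
      · rintro ⟨t, θ⟩
        simp [hg1]
  rw [e1, e2, e3]
  refine (norm_integral_le_integral_norm _).trans (le_of_eq ?_)
  congr 1
  funext θ
  rw [norm_mul, hg1, one_mul, BB_norm, norm_mul, hx, map_mul, norm_mul, ← zpow_natCast,
    norm_io_tau_zpow, one_mul, io_jj]

lemma moving_tendsto (ν : Measure X) [IsFiniteMeasure ν] (m : ℕ) :
    Tendsto (fun ρ : ℝ => ∫ θ in Ym m ∩ {θ | Xi m θ ≠ 0}, ‖BB ((‖Xi m θ‖ * ρ : ℝ) : ℂ)‖ ∂ν)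
      atTop (𝓝 0) := by
  have hY1m : MeasurableSet (Ym m ∩ {θ | Xi m θ ≠ 0}) :=
    (measurableSet_Ym m).inter ((measurable_Xi m) (measurableSet_singleton 0)).compl
  have := tendsto_integral_filter_of_dominated_convergence (l := atTop)
    (μ := ν.restrict (Ym m ∩ {θ | Xi m θ ≠ 0}))
    (F := fun (ρ : ℝ) θ => ‖BB ((‖Xi m θ‖ * ρ : ℝ) : ℂ)‖) (f := fun _ => (0 : ℝ)) (fun _ => 1)
    (Eventually.of_forall fun ρ => ?_)
    (Eventually.of_forall fun ρ => Eventually.of_forall fun θ => by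
      rw [norm_norm]; exact norm_BB_le _) (integrable_const _) ?_
  · simpa using this
  · refine (continuous_BB.measurable.comp ?_).norm.aestronglyMeasurable
    exact Complex.measurable_ofReal.comp ((measurable_Xi m).norm.mul_const ρ)
  · filter_upwards [ae_restrict_mem hY1m] with θ hθ
    have h1 := (BB_tendsto.comp (tendsto_id.const_mul_atTop (norm_pos_iff.2 hθ.2))).norm
    simpa using h1

theorem re_phi_eventually (ν : Measure X) [IsFiniteMeasure ν] (hU : UInv ν) {γ : ℝ} (hγ : 0 < γ) :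
    ∃ ρ : ℝ, ∀ z : GaussianInt, z ≠ 0 → ρ ≤ ‖(z : ℂ)‖ → -γ < (phi ν (jj z)).re := by
  have hT := hU.tInv
  have hlim : Tendsto (fun n : ℕ => ν.real (Ym n !)) atTop (𝓝 (ν.real {θ | Ycond θ})) := by
    have := tendsto_measure_iUnion_atTop (μ := ν) Ym_mono
    rw [iUnion_Ym] at this
    exact (ENNReal.tendsto_toReal (measure_ne_top _ _)).comp this
  obtain ⟨n, hn⟩ := (hlim.eventually (lt_mem_nhds
    (show ν.real {θ | Ycond θ} - γ / 2 < ν.real {θ | Ycond θ} by linarith))).exists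
  have hsub : Ym n ! ⊆ {θ | Ycond θ} := iUnion_Ym ▸ subset_iUnion (fun n : ℕ => Ym n !) n
  have hm := Nat.factorial_ne_zero n
  generalize n ! = m at hn hsub hm
  have hd : ν.real ({θ | Ycond θ} \ Ym m) < γ / 2 := by
    rw [measureReal_sdiff hsub (measurableSet_Ym m)]; linarith
  obtain ⟨ρ, hρ⟩ := eventually_atTop.1 ((moving_tendsto ν m).eventually
    (gt_mem_nhds (show 0 < γ / 2 by linarith)))
  refine ⟨ρ, fun z hz hzρ => ?_⟩
  have hi := integrable_E_eval ν (jj z)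
  have hX : MeasurableSet {θ | Xi m θ ≠ 0} := ((measurable_Xi m) (measurableSet_singleton 0)).compl
  have d1 := integral_add_compl measurableSet_Y hi
  have d2 := integral_inter_add_sdiff (s := {θ | Ycond θ}) (measurableSet_Ym m) hi.integrableOn
  have d3 := integral_inter_add_sdiff (s := Ym m) hX hi.integrableOn
  rw [inter_eq_right.2 hsub] at d2
  have p1 : ∫ θ in {θ | Ycond θ}ᶜ, E (θ (jj z)) ∂ν = 0 :=
    rigid _ hT.restrict_compl (by rw [Measure.restrict_apply measurableSet_Y]; simp) hz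
  have p2 : ‖∫ θ in {θ | Ycond θ} \ Ym m, E (θ (jj z)) ∂ν‖ < γ / 2 := by
    refine (norm_setIntegral_le_of_norm_le_const (C := 1) (measure_lt_top _ _)
      (fun _ _ => by simp)).trans_lt ?_
    rwa [one_mul]
  have p3 : ‖∫ θ in Ym m ∩ {θ | Xi m θ ≠ 0}, E (θ (jj z)) ∂ν‖ < γ / 2 :=
    (moving_bound ν hT hm z).trans_lt (hρ _ hzρ)
  have p4 : 0 ≤ (∫ θ in Ym m \ {θ | Xi m θ ≠ 0}, E (θ (jj z)) ∂ν).re := by
    have : ∫ θ in Ym m \ {θ | Xi m θ ≠ 0}, E (θ (jj z)) ∂ν =
        ∫ θ in Ym m \ {θ | Xi m θ ≠ 0}, (1 : ℂ) ∂ν := by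
      apply integral_congr_ae
      have h0 : ∀ᵐ θ ∂ν, ¬ (m • θ (jj z) = 0 ∧ θ (jj z) ≠ 0) :=
        measure_eq_zero_iff_ae_notMem.1 (atom_lemma ν hU m (Nat.pos_of_ne_zero hm) (jj z))
      filter_upwards [ae_restrict_mem ((measurableSet_Ym m).diff hX), ae_restrict_of_ae h0]
        with θ h1 h2
      have h3 : Xi m θ = 0 := not_not.1 h1.2
      have h4 := h1.1 0 z
      rw [h3, chi_zero, sub_zero, gam, pow_zero, div_one, ← nsmul_eq_mul, map_nsmul] at h4
      have h5 : θ (jj z) = 0 := by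
        by_contra h; exact h2 ⟨h4, h⟩
      rw [h5, E_zero]
    rw [this]
    simp
  have q2 := (Complex.abs_re_le_norm _).trans_lt p2
  have q3 := (Complex.abs_re_le_norm _).trans_lt p3
  rw [abs_lt] at q2 q3
  rw [phi, ← d1, ← d2, ← d3, p1]
  simp only [Complex.add_re, Complex.zero_re]
  linarith [q2.1, q3.1]

end Pool.Agent.MP_fc94d9_co

end
end

section

set_option autoImplicit false

open MeasureTheory Filter Topology Set

noncomputable section

namespace Pool.Agent.MP_fc94d9_co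

lemma exists_limit (μ : ℕ → Measure X) [∀ n, IsFiniteMeasure (μ n)]
    (hμ : ∀ n, (μ n).real univ ≤ 1) :
    ∃ ν : Measure X, IsFiniteMeasure ν ∧ ν.real univ ≤ 1 ∧ ∃ l : Filter ℕ, l.NeBot ∧ l ≤ atTop ∧
      ∀ f : X → ℝ, Continuous f → Tendsto (fun n => ∫ θ, f θ ∂(μ n)) l (𝓝 (∫ θ, f θ ∂ν)) := by
  let μ' : ℕ → FiniteMeasure X := fun n => ⟨μ n, inferInstance⟩
  have hc := isCompact_setOfPred_finiteMeasure_le_of_compactSpace X 1
  obtain ⟨ν, hν, hlim⟩ := hc.ultrafilter_le_nhds' ((Ultrafilter.of atTop).map μ') (by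
    rw [Ultrafilter.mem_map]
    exact univ_mem' fun n => hμ n)
  refine ⟨ν, inferInstance, hν, (Ultrafilter.of (atTop : Filter ℕ) : Filter ℕ), inferInstance,
    Ultrafilter.of_le _, fun f hf => ?_⟩
  exact FiniteMeasure.tendsto_iff_forall_integral_tendsto.1 hlim
    (BoundedContinuousFunction.mkOfCompact ⟨f, hf⟩)

lemma re_phi (ν : Measure X) [IsFiniteMeasure ν] (s : G) :
    (phi ν s).re = ∫ θ, (E (θ s)).re ∂ν :=
  (integral_re (integrable_E_eval ν s)).symm

lemma continuous_re_E (s : G) : Continuous (fun θ : X => (E (θ s)).re) :=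
  Complex.continuous_re.comp (continuous_E_eval s)

/-- Haar probability measure on the dual group. -/
def haar : Measure X := Measure.addHaarMeasure ⊤

instance : haar.IsAddLeftInvariant := by unfold haar; infer_instance

instance : IsProbabilityMeasure haar := ⟨Measure.addHaarMeasure_self (K₀ := ⊤)⟩

open Classical in
lemma phi_haar (z : G) : phi haar z = if z = 0 then 1 else 0 := by
  split_ifs with hz
  · simp [phi, hz]
  · have h1 := integral_add_left_eq_self (μ := haar) (fun θ : X => E (θ z))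
      (chi (1 / 2 / io z))
    have h2 : E (chi (1 / 2 / io z) z) = -1 := by
      rw [chi_apply, div_mul_cancel₀ _ (io_ne_zero hz), E_coe, ← Complex.exp_pi_mul_I]
      congr 1
      norm_num
      ring
    simp only [AddMonoidHom.add_apply, E_add, h2, integral_const_mul] at h1
    unfold phi
    linear_combination (-1 / 2) * h1

section Colour

variable {k : ℕ} (c : G → Fin k)

/-- The balanced indicator function of a colour class. -/
def bal (d : Fin k) (x : G) : ℝ := (if c x = d then 1 else 0) - 1 / k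

lemma sum_bal (x y : G) :
    ∑ d, bal c d x * bal c d y = (if c x = c y then 1 else 0) - 1 / k := by
  have hk : (k : ℝ) ≠ 0 := by
    have := (c x).pos
    positivity
  have : ∀ d, bal c d x * bal c d y = (if c x = d then (if c x = c y then 1 else 0) else 0) -
      (if c x = d then 1 / (k : ℝ) else 0) - (if c y = d then 1 / (k : ℝ) else 0) +
      1 / (k : ℝ) ^ 2 := by
    intro d
    unfold bal
    by_cases h1 : c x = d <;> by_cases h2 : c y = d
    · simp [h1, h2]; ring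
    · have : ¬ d = c y := fun h => h2 h.symm
      simp [h1, h2, this]; ring
    · simp [h1, h2]; ring
    · simp [h1, h2]; ring
  simp only [this, Finset.sum_add_distrib, Finset.sum_sub_distrib, Finset.sum_ite_eq,
    Finset.mem_univ, if_true, Finset.sum_const, Finset.card_univ, Fintype.card_fin, nsmul_eq_mul]
  field_simp
  ring

/-- The periodogram of the colouring on a finite set. -/
def dens (F : Finset G) (θ : X) : ℝ :=
  (∑ d, ‖∑ x ∈ F, (bal c d x : ℂ) * E (θ x)‖ ^ 2) / F.card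

lemma dens_nonneg (F : Finset G) (θ : X) : 0 ≤ dens c F θ := by unfold dens; positivity

lemma continuous_dens (F : Finset G) : Continuous (dens c F) := by
  unfold dens
  refine Continuous.div_const (continuous_finsetSum _ fun d _ => ?_) _
  exact (continuous_finsetSum _ fun x _ => continuous_const.mul (continuous_E_eval x)).norm.pow 2

/-- The spectral measure of the colouring on a finite set. -/
def spec (F : Finset G) : Measure X := haar.withDensity (fun θ => ENNReal.ofReal (dens c F θ))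

instance (F : Finset G) : IsFiniteMeasure (spec c F) :=
  isFiniteMeasure_withDensity_ofReal
    ((continuous_dens c F).integrable_of_hasCompactSupport
      (HasCompactSupport.of_compactSpace _)).hasFiniteIntegral

open Classical in
lemma phi_spec (F : Finset G) (s : G) :
    phi (spec c F) s = (((∑ x ∈ F, if x + s ∈ F then
      ((if c x = c (x + s) then 1 else 0) - 1 / (k : ℝ)) else 0) / F.card : ℝ) : ℂ) := by
  rw [phi, spec, integral_withDensity_eq_integral_toReal_smul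
    (continuous_dens c F).measurable.ennreal_ofReal (Eventually.of_forall fun _ => by simp)]
  have h1 : ∀ θ : X, (ENNReal.ofReal (dens c F θ)).toReal • E (θ s) =
      (∑ x ∈ F, ∑ y ∈ F, ((∑ d, bal c d x * bal c d y : ℝ) : ℂ) * E (θ (x + s - y))) /
        F.card := by
    intro θ
    rw [ENNReal.toReal_ofReal (dens_nonneg c F θ), dens, Complex.real_smul, Complex.ofReal_div,
      div_mul_eq_mul_div, Complex.ofReal_sum, Finset.sum_mul, Complex.ofReal_natCast]
    congr 1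
    have : ∀ d, ((‖∑ x ∈ F, (bal c d x : ℂ) * E (θ x)‖ ^ 2 : ℝ) : ℂ) * E (θ s) =
        ∑ x ∈ F, ∑ y ∈ F, ((bal c d x * bal c d y : ℝ) : ℂ) * E (θ (x + s - y)) := by
      intro d
      rw [← Complex.normSq_eq_norm_sq, ← Complex.mul_conj, map_sum, Finset.sum_mul_sum,
        Finset.sum_mul]
      refine Finset.sum_congr rfl fun x _ => ?_
      rw [Finset.sum_mul]
      refine Finset.sum_congr rfl fun y _ => ?_
      rw [map_mul, Complex.conj_ofReal, ← E_neg, map_sub, map_add, sub_eq_add_neg, E_add, E_add]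
      push_cast; ring
    simp only [this]
    rw [Finset.sum_comm]
    refine Finset.sum_congr rfl fun x _ => ?_
    rw [Finset.sum_comm]
    refine Finset.sum_congr rfl fun y _ => ?_
    rw [Complex.ofReal_sum, Finset.sum_mul]
  simp only [h1]
  rw [integral_div, integral_finsetSum _ fun x _ => integrable_finsetSum _ fun y _ =>
    (integrable_E_eval haar _).const_mul _, Complex.ofReal_div, Complex.ofReal_natCast,
    Complex.ofReal_sum]
  congr 1
  refine Finset.sum_congr rfl fun x _ => ?_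
  rw [integral_finsetSum _ fun y _ => (integrable_E_eval haar _).const_mul _]
  have h2 : ∀ y, ∫ θ : X, ((∑ d, bal c d x * bal c d y : ℝ) : ℂ) * E (θ (x + s - y)) ∂haar =
      if x + s = y then (((if c x = c y then 1 else 0) - 1 / (k : ℝ) : ℝ) : ℂ) else 0 := by
    intro y
    rw [integral_const_mul, sum_bal]
    change _ * phi haar _ = _
    rw [phi_haar]
    simp only [sub_eq_zero]
    split_ifs <;> simp
  simp only [h2]
  rw [Finset.sum_ite_eq]
  split_ifs <;> simp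

lemma mass_spec (F : Finset G) (hF : F.Nonempty) : (spec c F).real univ ≤ 1 := by
  classical
  have h1 := re_phi (spec c F) 0
  have hc : (0 : ℝ) < F.card := by exact_mod_cast hF.card_pos
  rw [phi_spec, Complex.ofReal_re] at h1
  simp only [map_zero, E_zero, Complex.one_re, integral_const, smul_eq_mul, mul_one] at h1
  rw [← h1, div_le_one hc]
  refine (Finset.sum_le_card_nsmul _ _ 1 fun x _ => ?_).trans (by simp)
  have : (0 : ℝ) ≤ 1 / k := by positivity
  split_ifs <;> linarith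

lemma exists_stage_one (D : Set G) (hD : ∀ x, ∀ s ∈ D, c x ≠ c (x + s)) :
    ∃ ν : Measure X, IsFiniteMeasure ν ∧ ν.real univ ≤ 1 ∧
      ∀ s ∈ D, (phi ν s).re ≤ -(1 / k) := by
  classical
  obtain ⟨e, he⟩ := exists_surjective_nat G
  choose F hF hF' using fun n : ℕ => exists_foelner ((Finset.range (n + 1)).image e)
    (fun s _ => add_left_injective s) (show (0 : ℝ) < 1 / ((n : ℝ) + 1) by positivity)
  obtain ⟨ν, hν, hm, l, hl, hl', hlim⟩ := exists_limit (fun n => spec c (F n))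
    (fun n => mass_spec c _ (hF n))
  refine ⟨ν, hν, hm, fun s hs => ?_⟩
  obtain ⟨n0, rfl⟩ := he s
  have h1 := hlim _ (continuous_re_E (e n0))
  rw [← re_phi] at h1
  have h2 : Tendsto (fun n : ℕ => -(1 / (k : ℝ)) * (1 - 1 / ((n : ℝ) + 1))) l
      (𝓝 (-(1 / (k : ℝ)) * (1 - 0))) :=
    ((tendsto_const_nhds.sub tendsto_one_div_add_atTop_nhds_zero_nat).const_mul _).mono_left hl'
  rw [sub_zero, mul_one] at h2
  refine le_of_tendsto_of_tendsto h1 h2 ?_
  filter_upwards [hl' (eventually_ge_atTop n0)] with n hn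
  have hc : (0 : ℝ) < (F n).card := by exact_mod_cast (hF n).card_pos
  have h3 := hF' n (e n0) (Finset.mem_image_of_mem _ (Finset.mem_range.2 (Nat.lt_succ_of_le hn)))
  rw [← re_phi, phi_spec, Complex.ofReal_re, div_le_iff₀ hc]
  have h4 : (((F n).filter (fun x => x + e n0 ∈ F n)).card : ℝ) +
      ((F n).filter (fun x => x + e n0 ∉ F n)).card = (F n).card := by
    exact_mod_cast Finset.card_filter_add_card_filter_not _
  have h5 : (∑ x ∈ F n, if x + e n0 ∈ F n then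
      ((if c x = c (x + e n0) then 1 else 0) - 1 / (k : ℝ)) else 0) =
      -(1 / (k : ℝ)) * ((F n).filter (fun x => x + e n0 ∈ F n)).card := by
    rw [Finset.card_filter]; push_cast
    rw [Finset.mul_sum]
    refine Finset.sum_congr rfl fun x _ => ?_
    rw [if_neg (hD x _ hs)]
    split_ifs <;> simp
  have h6 : (0 : ℝ) ≤ 1 / k := by positivity
  refine le_trans (le_of_eq (by convert h5)) ?_
  nlinarith

end Colour

/-- The rotations in `G`. -/
def UU : Submonoid G where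
  carrier := {u | ‖io u‖ = 1}
  one_mem' := by simp
  mul_mem' := by
    intro a b ha hb
    simp only [mem_ofPred_eq] at ha hb ⊢
    rw [map_mul, norm_mul, ha, hb, one_mul]

lemma exists_stage_two (ν0 : Measure X) [IsFiniteMeasure ν0] (hm : ν0.real univ ≤ 1) (D : Set G)
    (hD : ∀ u : G, ‖io u‖ = 1 → ∀ s ∈ D, u * s ∈ D) {γ : ℝ} (h0 : ∀ s ∈ D, (phi ν0 s).re ≤ γ) :
    ∃ ν : Measure X, IsFiniteMeasure ν ∧ UInv ν ∧ ∀ s ∈ D, (phi ν s).re ≤ γ := by
  classical
  have : Countable (Additive UU) := inferInstanceAs (Countable UU)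
  obtain ⟨e, he⟩ := exists_surjective_nat (Additive UU)
  have hinj : ∀ s : Additive UU, Function.Injective (fun x : Additive UU => x + s) := by
    intro s x y hxy
    have h1 : (x.toMul : G) * (s.toMul : G) = (y.toMul : G) * (s.toMul : G) :=
      congrArg (fun t : Additive UU => (t.toMul : G)) hxy
    have h2 : (s.toMul : G) ≠ 0 := by
      intro h
      have : ‖io (s.toMul : G)‖ = 1 := s.toMul.2
      rw [h] at this; simp at this
    exact Subtype.ext (mul_right_cancel₀ h2 h1)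
  choose F hF hF' using fun n : ℕ => exists_foelner ((Finset.range (n + 1)).image e)
    (fun s _ => hinj s) (show (0 : ℝ) < 1 / ((n : ℝ) + 1) by positivity)
  let μ : ℕ → Measure X := fun n =>
    (((F n).card : NNReal)⁻¹) • ∑ u ∈ F n, ν0.map (S (u.toMul : G))
  have hμ : ∀ n (f : X → ℝ), Continuous f → ∫ θ, f θ ∂(μ n) =
      (∑ u ∈ F n, ∫ θ, f (S (u.toMul : G) θ) ∂ν0) / (F n).card := by
    intro n f hf
    simp only [μ]
    rw [integral_smul_nnreal_measure, integral_finsetSum_measure fun u _ =>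
      hf.integrable_of_hasCompactSupport (HasCompactSupport.of_compactSpace _)]
    rw [NNReal.smul_def, smul_eq_mul, div_eq_inv_mul]
    congr 1
    exact Finset.sum_congr rfl fun u _ =>
      integral_map (measurable_S _).aemeasurable hf.aestronglyMeasurable
  have hc : ∀ n, (0 : ℝ) < (F n).card := fun n => by exact_mod_cast (hF n).card_pos
  obtain ⟨ν, hν, -, l, hl, hl', hlim⟩ := exists_limit μ (fun n => by
    have := hμ n (fun _ => 1) continuous_const
    simp only [integral_const, smul_eq_mul, mul_one, Finset.sum_const, nsmul_eq_mul] at this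
    rw [this, mul_div_cancel_left₀ _ (hc n).ne']
    exact hm)
  refine ⟨ν, hν, fun u hu => ⟨measurable_S u, ?_⟩, fun s hs => ?_⟩
  · apply ext_of_forall_integral_eq_of_IsFiniteMeasure
    intro f
    rw [integral_map (measurable_S _).aemeasurable f.continuous.aestronglyMeasurable]
    have h1 := (hlim _ (f.continuous.comp (continuous_S u))).sub (hlim _ f.continuous)
    have h2 : Tendsto (fun n : ℕ => 2 * ‖f‖ * (1 / ((n : ℝ) + 1))) l (𝓝 (2 * ‖f‖ * 0)) :=
      (tendsto_one_div_add_atTop_nhds_zero_nat.const_mul _).mono_left hl'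
    rw [mul_zero] at h2
    have h3 := le_of_tendsto_of_tendsto h1.abs h2 ?_
    · exact sub_eq_zero.1 (abs_nonpos_iff.1 h3)
    obtain ⟨n0, hn0⟩ := he (Additive.ofMul ⟨u, hu⟩)
    filter_upwards [hl' (eventually_ge_atTop n0)] with n hn
    have h4 := hF' n (e n0) (Finset.mem_image_of_mem _ (Finset.mem_range.2 (Nat.lt_succ_of_le hn)))
    have h5 := abs_sum_translate_sub_le (F n) (hinj (e n0))
      (fun v => ∫ θ, f (S (v.toMul : G) θ) ∂ν0) (C := ‖f‖) (fun v => by
        have := norm_integral_le_of_norm_le_const (μ := ν0)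
          (f := fun θ => f (S (v.toMul : G) θ)) (C := ‖f‖)
          (Eventually.of_forall fun θ => f.norm_coe_le_norm _)
        rw [Real.norm_eq_abs] at this
        exact this.trans (mul_le_of_le_one_right (norm_nonneg _) hm))
    rw [hμ n _ (f.continuous.comp (continuous_S u)), hμ n _ f.continuous, ← sub_div, abs_div,
      abs_of_pos (hc n), div_le_iff₀ (hc n)]
    have h6 : ∀ v : Additive UU, ∫ θ, (f ∘ S u) (S (v.toMul : G) θ) ∂ν0 =
        ∫ θ, f (S ((v + e n0).toMul : G) θ) ∂ν0 := by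
      intro v
      simp only [Function.comp, S_S, hn0]
      rfl
    simp only [h6]
    refine h5.trans ?_
    rw [mul_assoc (2 * ‖f‖)]
    gcongr
  · have h1 := hlim _ (continuous_re_E s)
    rw [← re_phi] at h1
    refine le_of_tendsto' h1 fun n => ?_
    rw [hμ n _ (continuous_re_E s), div_le_iff₀ (hc n)]
    refine (Finset.sum_le_card_nsmul _ _ γ fun u _ => ?_).trans (by simp [mul_comm])
    have := h0 _ (hD _ u.toMul.2 s hs)
    rwa [re_phi] at this

end Pool.Agent.MP_fc94d9_co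

end
end

section

set_option autoImplicit false

open MeasureTheory Filter Topology Set

noncomputable section

namespace Pool.Agent.MP_fc94d9_co

theorem mono_gaussian {k : ℕ} (c : EuclideanSpace ℝ (Fin 2) → Fin k) :
    ∃ ρ : ℝ, ∀ z : GaussianInt, z ≠ 0 → ρ ≤ ‖(z : ℂ)‖ →
      ∃ x y : EuclideanSpace ℝ (Fin 2), dist x y = ‖(z : ℂ)‖ ∧ c x = c y := by
  let P := Complex.orthonormalBasisOneI.repr
  let c' : G → Fin k := fun x => c (P (io x))
  let D : Set G := {s | ∀ x y : EuclideanSpace ℝ (Fin 2), dist x y = ‖io s‖ → c x ≠ c y}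
  have hk : (0 : ℝ) < 1 / k := by
    have := (c 0).pos
    positivity
  obtain ⟨ν0, hν0, hm, h0⟩ := exists_stage_one c' D (fun x s hs => hs _ _ (by
    rw [P.dist_map, dist_eq_norm, map_add]; simp))
  obtain ⟨ν, hν, hU, h1⟩ := exists_stage_two ν0 hm D (fun u hu s hs x y hxy => hs x y (by
    rwa [map_mul, norm_mul, hu, one_mul] at hxy)) h0
  obtain ⟨ρ, hρ⟩ := re_phi_eventually ν hU hk
  refine ⟨ρ, fun z hz hzρ => ?_⟩
  by_contra hcon
  push Not at hcon
  have h2 : jj z ∈ D := fun x y hxy => hcon x y (by rwa [io_jj] at hxy)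
  exact absurd (hρ z hz hzρ) (not_lt.2 (h1 _ h2))

theorem mono_nat {k : ℕ} (c : EuclideanSpace ℝ (Fin 2) → Fin k) :
    ∃ N : ℕ, ∀ n : ℕ, N ≤ n → ∃ x y : EuclideanSpace ℝ (Fin 2), dist x y = n ∧ c x = c y := by
  obtain ⟨ρ, hρ⟩ := mono_gaussian c
  refine ⟨⌈ρ⌉₊ + 1, fun n hn => ?_⟩
  have h1 : ‖((n : GaussianInt) : ℂ)‖ = n := by simp
  obtain ⟨x, y, hxy, hc⟩ := hρ n (by exact_mod_cast (by omega : n ≠ 0)) (by
    rw [h1]; exact (Nat.le_ceil ρ).trans (by exact_mod_cast (by omega : ⌈ρ⌉₊ ≤ n)))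
  exact ⟨x, y, hxy.trans h1, hc⟩

theorem no_colouring :
    ¬ (∃ k : ℕ, ∃ c : EuclideanSpace ℝ (Fin 2) → Fin k,
      ∀ x y : EuclideanSpace ℝ (Fin 2), ∀ n : ℕ,
        dist x y = (2 : ℝ) ^ n → c x ≠ c y) := by
  rintro ⟨k, c, h⟩
  obtain ⟨N, hN⟩ := mono_nat c
  obtain ⟨x, y, hxy, hc⟩ := hN (2 ^ N) (Nat.lt_pow_self (by norm_num)).le
  exact h x y N (by rw [hxy]; push_cast; rfl) hc

end Pool.Agent.MP_fc94d9_co

end
end
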