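import Mathlib

section

set_option autoImplicit false

open MeasureTheory Filter Topology Set

noncomputable section

namespace Pool.Agent.MP_fc94d9_co

/-- The countable field of algebraic complex numbers. -/
def G : Type := ↥(algebraicClosure ℚ ℂ)

instance : Field G := inferInstanceAs (Field ↥(algebraicClosure ℚ ℂ))

instance : Countable G := by
  have h : Set.Countable {x : ℂ | IsAlgebraic ℚ x} := Algebraic.countable ℚ ℂ
  have : Countable ↥{x : ℂ | IsAlgebraic ℚ x} := h.to_subtype
  refine Function.Injective.countable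
    (f := fun x : ↥(algebraicClosure ℚ ℂ) =>
      (⟨x.1, (mem_algebraicClosure_iff).1 x.2⟩ : ↥{x : ℂ | IsAlgebraic ℚ x})) ?_
  intro x y hxy
  exact Subtype.ext (congrArg (fun t : ↥{x : ℂ | IsAlgebraic ℚ x} => t.1) hxy)

/-- The embedding into the complex numbers. -/
def io : G →+* ℂ := (algebraicClosure ℚ ℂ).val.toRingHom

lemma io_inj : Function.Injective io := io.injective

instance : CharZero G := io.charZero_iff io_inj |>.2 inferInstance

lemma exists_io_eq {x : ℂ} (hx : IsAlgebraic ℚ x) : ∃ g : G, io g = x :=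
  ⟨(⟨x, (mem_algebraicClosure_iff).2 hx⟩ : ↥(algebraicClosure ℚ ℂ)), rfl⟩

lemma exists_I : ∃ g : G, io g = Complex.I := by
  apply exists_io_eq
  refine ⟨Polynomial.X ^ 2 + 1, ?_, ?_⟩
  · exact (Polynomial.monic_X_pow_add_C (1 : ℚ) two_ne_zero).ne_zero
  · simp

def IG : G := exists_I.choose

lemma io_IG : io IG = Complex.I := exists_I.choose_spec

lemma IG_sq : IG * IG = ((-1 : ℤ) : G) := by
  apply io_inj
  simp [io_IG]

/-- Gaussian integers inside `G`. -/
def jj : GaussianInt →+* G := Zsqrtd.lift ⟨IG, IG_sq⟩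

lemma jj_apply (w : GaussianInt) : jj w = (w.re : G) + (w.im : G) * IG := by
  simp [jj]

lemma io_jj (w : GaussianInt) : io (jj w) = (w : ℂ) := by
  rw [jj_apply, GaussianInt.toComplex_def]
  simp [io_IG]

lemma jj_inj : Function.Injective jj := by
  intro a b h
  have : (a : ℂ) = b := by rw [← io_jj, ← io_jj, h]
  exact GaussianInt.toComplex_inj.1 this

lemma jj_ne_zero {a : GaussianInt} (h : a ≠ 0) : jj a ≠ 0 := by
  intro h0
  exact h (jj_inj (by simpa using h0))

abbrev T := UnitAddCircle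

/-- Characters of the discrete group `G`. -/
abbrev X := G →+ T

instance : TopologicalSpace X := TopologicalSpace.induced (fun θ : X => (θ : G → T)) inferInstance

lemma isEmbedding_coe : IsEmbedding (fun θ : X => (θ : G → T)) :=
  ⟨⟨rfl⟩, DFunLike.coe_injective⟩

lemma continuous_eval (z : G) : Continuous (fun θ : X => θ z) :=
  (continuous_apply z).comp isEmbedding_coe.continuous

lemma continuous_X {Y : Type*} [TopologicalSpace Y] {f : Y → X}
    (h : ∀ z, Continuous (fun y => f y z)) : Continuous f :=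
  isEmbedding_coe.continuous_iff.2 (continuous_pi h)

lemma isClosedEmbedding_coe : IsClosedEmbedding (fun θ : X => (θ : G → T)) := by
  refine ⟨isEmbedding_coe, ?_⟩
  have : range (fun θ : X => (θ : G → T)) = ⋂ x : G, ⋂ y : G, {f : G → T | f (x + y) = f x + f y} := by
    ext f
    simp only [mem_range, mem_iInter, mem_ofPred_eq]
    constructor
    · rintro ⟨θ, rfl⟩ x y
      exact map_add θ x y
    · intro h
      exact ⟨AddMonoidHom.mk' f h, rfl⟩
  rw [this]
  refine isClosed_iInter fun x => isClosed_iInter fun y => isClosed_eq (by fun_prop) (by fun_prop)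

instance : CompactSpace X := isClosedEmbedding_coe.compactSpace
instance : T2Space X := isEmbedding_coe.t2Space
instance : SecondCountableTopology X := isEmbedding_coe.secondCountableTopology
instance : TopologicalSpace.MetrizableSpace X := isEmbedding_coe.metrizableSpace
instance : IsTopologicalAddGroup X where
  continuous_add := continuous_X fun z =>
    ((continuous_eval z).comp continuous_fst).add ((continuous_eval z).comp continuous_snd)
  continuous_neg := continuous_X fun z => (continuous_eval z).neg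

instance : MeasurableSpace X := borel X
instance : BorelSpace X := ⟨rfl⟩

lemma measurable_eval (z : G) : Measurable (fun θ : X => θ z) := (continuous_eval z).measurable

/-- The standard character of the circle. -/
def E (t : T) : ℂ := (AddCircle.toCircle t : ℂ)

lemma E_add (s t : T) : E (s + t) = E s * E t := by
  simp [E, AddCircle.toCircle_add]

@[simp] lemma E_zero : E 0 = 1 := by simp [E]

@[simp] lemma norm_E (t : T) : ‖E t‖ = 1 := Circle.norm_coe _

lemma E_coe (x : ℝ) : E (x : T) = Complex.exp (2 * Real.pi * x * Complex.I) := by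
  simp [E, AddCircle.toCircle_apply_mk, Circle.coe_exp]

lemma continuous_E : Continuous E :=
  continuous_subtype_val.comp AddCircle.continuous_toCircle

lemma E_neg (t : T) : E (-t) = (starRingEnd ℂ) (E t) := by
  have h1 : E (-t) * E t = 1 := by rw [← E_add]; simp
  have h2 : (starRingEnd ℂ) (E t) * E t = 1 := by
    rw [mul_comm, Complex.mul_conj, Complex.normSq_eq_norm_sq, norm_E]; simp
  have h3 : E t ≠ 0 := by
    intro h; have := norm_E t; rw [h] at this; simp at this
  exact mul_right_cancel₀ h3 (h1.trans h2.symm)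

lemma E_inj {s t : T} (h : E s = E t) : s = t := by
  have : AddCircle.toCircle s = AddCircle.toCircle t := Subtype.ext h
  exact AddCircle.injective_toCircle one_ne_zero this

lemma E_nsmul (n : ℕ) (t : T) : E (n • t) = E t ^ n := by
  induction n with
  | zero => simp
  | succ n ih => rw [succ_nsmul, E_add, ih, pow_succ]

/-- Action of multiplication by `u` on characters. -/
def S (u : G) (θ : X) : X := θ.comp (AddMonoidHom.mulLeft u)

@[simp] lemma S_apply (u : G) (θ : X) (z : G) : S u θ z = θ (u * z) := rfl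

lemma continuous_S (u : G) : Continuous (S u) := continuous_X fun z => continuous_eval (u * z)

lemma measurable_S (u : G) : Measurable (S u) := (continuous_S u).measurable

lemma S_S (u v : G) (θ : X) : S u (S v θ) = S (v * u) θ := by
  ext z; simp [mul_assoc]

@[simp] lemma S_one (θ : X) : S 1 θ = θ := by ext z; simp

lemma S_sub (u : G) (θ θ' : X) : S u (θ - θ') = S u θ - S u θ' := by ext z; simp

/-- The continuous character of frequency `ξ`. -/
def chi (ξ : ℂ) : X where
  toFun z := (((ξ * io z).re : ℝ) : T)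
  map_zero' := by simp
  map_add' x y := by simp [mul_add]

lemma chi_apply (ξ : ℂ) (z : G) : chi ξ z = (((ξ * io z).re : ℝ) : T) := rfl

lemma chi_sub (ξ ξ' : ℂ) : chi (ξ - ξ') = chi ξ - chi ξ' := by
  ext z; simp [chi_apply, sub_mul]

@[simp] lemma chi_zero : chi 0 = 0 := by ext z; simp [chi_apply]

lemma S_chi (u : G) (ξ : ℂ) : S u (chi ξ) = chi (ξ * io u) := by
  ext z; simp [chi_apply, mul_assoc]

lemma measurable_chi_apply (z : G) : Measurable (fun ξ : ℂ => chi ξ z) := by
  have : Continuous (fun ξ : ℂ => chi ξ z) := by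
    simp only [chi_apply]
    exact (AddCircle.continuous_mk' 1).comp (by fun_prop)
  exact this.measurable

/-- `ψ` vanishes on the lattice `γ ℤ[i]`. -/
def Van (ψ : X) (γ : G) : Prop := ∀ w : GaussianInt, ψ (γ * jj w) = 0

lemma van_iff {ψ : X} {γ : G} : Van ψ γ ↔ ψ γ = 0 ∧ ψ (γ * IG) = 0 := by
  constructor
  · intro h
    refine ⟨by simpa using h 1, ?_⟩
    have := h ⟨0, 1⟩
    simpa [jj_apply] using this
  · rintro ⟨h1, h2⟩ w
    have : γ * jj w = w.re • γ + w.im • (γ * IG) := by
      rw [jj_apply]; simp only [zsmul_eq_mul]; ring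
    rw [this, map_add, map_zsmul, map_zsmul, h1, h2]; simp

lemma Van.mul {ψ : X} {γ : G} (h : Van ψ γ) (a : GaussianInt) : Van ψ (γ * jj a) := by
  intro w
  rw [mul_assoc, ← map_mul]
  exact h _

lemma Van.of_eq {ψ : X} {γ δ : G} (h : Van ψ γ) (a : GaussianInt) (hδ : δ = γ * jj a) :
    Van ψ δ := hδ ▸ h.mul a

lemma Van.of_coprime {ψ : X} {γ : G} {a b : GaussianInt} (hab : IsCoprime a b)
    (ha : Van ψ (γ * jj a)) (hb : Van ψ (γ * jj b)) : Van ψ γ := by
  intro w
  obtain ⟨x, y, hxy⟩ := hab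
  have : γ * jj w = γ * jj a * jj (x * w) + γ * jj b * jj (y * w) := by
    have h1 : jj w = jj ((x * a + y * b) * w) := by rw [hxy, one_mul]
    rw [h1]; simp only [map_mul, map_add]; ring
  rw [this, map_add, ha, hb, add_zero]

lemma Van.sub {ψ ψ' : X} {γ : G} (h : Van ψ γ) (h' : Van ψ' γ) : Van (ψ - ψ') γ := by
  intro w; simp [h w, h' w]

lemma Van.add {ψ ψ' : X} {γ : G} (h : Van ψ γ) (h' : Van ψ' γ) : Van (ψ + ψ') γ := by
  intro w; simp [h w, h' w]

lemma Van.neg {ψ : X} {γ : G} (h : Van ψ γ) : Van (-ψ) γ := by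
  intro w; simp [h w]

lemma van_zero (γ : G) : Van 0 γ := by intro w; simp

lemma van_S {ψ : X} {u γ : G} : Van (S u ψ) γ ↔ Van ψ (u * γ) := by
  simp [Van, mul_assoc]

lemma coe_eq_zero_of_abs_lt {x : ℝ} (h0 : (x : T) = 0) (hx : |x| < 1) : x = 0 := by
  obtain ⟨n, hn⟩ := (AddCircle.coe_eq_zero_iff (1 : ℝ)).1 h0
  simp only [zsmul_eq_mul, mul_one] at hn
  rw [← hn] at hx ⊢
  have : |n| < 1 := by exact_mod_cast hx
  have : n = 0 := by
    rcases abs_lt.1 this with ⟨h1, h2⟩; omega
  simp [this]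

lemma Van.chi_eq_zero {ξ : ℂ} {γ : G} (h : Van (chi ξ) γ) (hγ : γ ≠ 0)
    (hn : ‖ξ‖ * ‖io γ‖ < 1) : ξ = 0 := by
  obtain ⟨h1, h2⟩ := van_iff.1 h
  rw [chi_apply] at h1 h2
  have hb : ‖ξ * io γ‖ < 1 := by rwa [norm_mul]
  have e1 : (ξ * io γ).re = 0 :=
    coe_eq_zero_of_abs_lt h1 ((Complex.abs_re_le_norm _).trans_lt hb)
  have e2 : (ξ * io (γ * IG)).re = -(ξ * io γ).im := by
    rw [map_mul, io_IG, ← mul_assoc]; simp
  rw [e2] at h2
  have e3 : -(ξ * io γ).im = 0 :=
    coe_eq_zero_of_abs_lt h2 (by rw [abs_neg]; exact (Complex.abs_im_le_norm _).trans_lt hb)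
  have : ξ * io γ = 0 := Complex.ext e1 (neg_eq_zero.1 e3)
  rcases mul_eq_zero.1 this with h | h
  · exact h
  · exact absurd (io_inj (by simpa using h)) hγ

lemma measurableSet_van {Y : Type*} [MeasurableSpace Y] {f : Y → X}
    (hf : ∀ z, Measurable (fun y => f y z)) (γ : G) : MeasurableSet {y | Van (f y) γ} := by
  simp only [van_iff]
  exact ((hf γ) (measurableSet_singleton 0)).inter ((hf (γ * IG)) (measurableSet_singleton 0))

/-- The representative in `[a, a+1)`. -/
def L (a : ℝ) (t : T) : ℝ := (AddCircle.equivIco 1 a t : ℝ)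

lemma L_mem (a : ℝ) (t : T) : L a t ∈ Ico a (a + 1) := (AddCircle.equivIco 1 a t).2

@[simp] lemma coe_L (a : ℝ) (t : T) : ((L a t : ℝ) : T) = t :=
  (AddCircle.equivIco 1 a).symm_apply_apply t

lemma L_coe {a x : ℝ} (hx : x ∈ Ico a (a + 1)) : L a (x : T) = x := by
  simp [L, AddCircle.equivIco_coe_eq hx]

lemma measurable_L (a : ℝ) : Measurable (L a) :=
  measurable_subtype_coe.comp (AddCircle.measurableEquivIco 1 a).measurable

/-- The canonical frequency matching `θ` on the lattice `γ ℤ[i]`. -/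
def xi (a : ℝ) (γ : G) (θ : X) : ℂ := ((L a (θ γ) : ℂ) - Complex.I * L a (θ (γ * IG))) / io γ

lemma measurable_xi (a : ℝ) (γ : G) : Measurable (xi a γ) := by
  unfold xi
  have h1 : Measurable (fun θ : X => L a (θ γ)) := (measurable_L a).comp (measurable_eval γ)
  have h2 : Measurable (fun θ : X => L a (θ (γ * IG))) :=
    (measurable_L a).comp (measurable_eval _)
  fun_prop

lemma io_ne_zero {γ : G} (h : γ ≠ 0) : io γ ≠ 0 := by
  intro h0; exact h (io_inj (by simpa using h0))

lemma van_xi (a : ℝ) {γ : G} (hγ : γ ≠ 0) (θ : X) : Van (θ - chi (xi a γ θ)) γ := by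
  have hγ' := io_ne_zero hγ
  have e : xi a γ θ * io γ = (L a (θ γ) : ℂ) - Complex.I * L a (θ (γ * IG)) := by
    unfold xi; field_simp
  rw [van_iff]
  constructor
  · simp [chi_apply, e]
  · rw [AddMonoidHom.sub_apply, chi_apply, map_mul io, ← mul_assoc, e, io_IG]
    simp

/-- Fourier transform of a measure on the dual group. -/
def phi (ν : Measure X) (z : G) : ℂ := ∫ θ, E (θ z) ∂ν

lemma continuous_E_eval (z : G) : Continuous (fun θ : X => E (θ z)) :=
  continuous_E.comp (continuous_eval z)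

lemma integrable_of_bdd {Y : Type*} [MeasurableSpace Y] {ν : Measure Y} [IsFiniteMeasure ν]
    {F : Type*} [NormedAddCommGroup F] {f : Y → F} (hf : AEStronglyMeasurable f ν) (C : ℝ)
    (hC : ∀ y, ‖f y‖ ≤ C) : Integrable f ν :=
  Integrable.of_bound hf C (Eventually.of_forall hC)

lemma integrable_E_eval (ν : Measure X) [IsFiniteMeasure ν] (z : G) :
    Integrable (fun θ : X => E (θ z)) ν :=
  integrable_of_bdd (continuous_E_eval z).aestronglyMeasurable 1 (fun _ => by simp)

lemma phi_mul {ν : Measure X} {u : G} (hu : MeasurePreserving (S u) ν ν) (z : G) :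
    phi ν (u * z) = phi ν z := by
  unfold phi
  have := integral_map (μ := ν) (φ := S u) (measurable_S u).aemeasurable
    (f := fun θ : X => E (θ z)) (continuous_E_eval z).aestronglyMeasurable
  rw [hu.map_eq] at this
  rw [this]; rfl

/-- `2 + i`. -/
def pp : GaussianInt := ⟨2, 1⟩
/-- `2 - i`. -/
def qq : GaussianInt := ⟨2, -1⟩

lemma pp_mul_qq : pp * qq = 5 := by decide

lemma star_pp : star pp = qq := by decide
lemma star_qq : star qq = pp := by decide
lemma pp_ne : pp ≠ 0 := by decide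
lemma qq_ne : qq ≠ 0 := by decide

lemma coprime_pp_qq : IsCoprime pp qq := ⟨⟨1, -1⟩, -1, by decide⟩

lemma norm_qq : qq.norm = 5 := by decide

lemma irreducible_qq : Irreducible qq := by
  constructor
  · intro h
    have := (Zsqrtd.norm_eq_one_iff' (by norm_num) qq).2 h
    rw [norm_qq] at this; omega
  · intro a b hab
    have hn : a.norm * b.norm = 5 := by rw [← Zsqrtd.norm_mul, ← hab, norm_qq]
    have ha := GaussianInt.norm_nonneg a
    have hb := GaussianInt.norm_nonneg b
    have h5 : Prime (5 : ℤ) := Int.prime_iff_natAbs_prime.2 (by norm_num)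
    rcases h5.irreducible.isUnit_or_isUnit hn.symm with h | h
    · left
      rw [← Zsqrtd.norm_eq_one_iff' (by norm_num)]
      rcases Int.isUnit_iff.1 h with h | h <;> omega
    · right
      rw [← Zsqrtd.norm_eq_one_iff' (by norm_num)]
      rcases Int.isUnit_iff.1 h with h | h <;> omega

lemma exists_factor_qq {x : GaussianInt} (hx : x ≠ 0) :
    ∃ (v : ℕ) (g : GaussianInt), x = qq ^ v * g ∧ IsCoprime g qq ∧ (5 : ℤ) ^ v ≤ x.norm := by
  obtain ⟨v, g, hg, hxg⟩ := WfDvdMonoid.max_power_factor hx irreducible_qq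
  refine ⟨v, g, hxg, (irreducible_qq.coprime_iff_not_dvd.2 hg).symm, ?_⟩
  have hg0 : g ≠ 0 := by rintro rfl; exact hg (dvd_zero _)
  have h1 : 1 ≤ g.norm := by
    have := GaussianInt.norm_pos.2 hg0; omega
  have h2 : (qq ^ v).norm = 5 ^ v := by
    rw [← norm_qq]; exact map_pow (Zsqrtd.normMonoidHom) qq v
  rw [hxg, Zsqrtd.norm_mul, h2]
  nlinarith [pow_pos (show (0 : ℤ) < 5 by norm_num) v]

lemma norm_coe_sq (w : GaussianInt) : ‖(w : ℂ)‖ ^ 2 = (w.norm : ℝ) := by
  rw [← Complex.normSq_eq_norm_sq, ← GaussianInt.intCast_real_norm]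

lemma one_le_norm_coe {w : GaussianInt} (hw : w ≠ 0) : 1 ≤ ‖(w : ℂ)‖ := by
  have h1 : (1 : ℝ) ≤ w.norm := by
    have := GaussianInt.norm_pos.2 hw
    exact_mod_cast this
  have := norm_coe_sq w
  nlinarith [norm_nonneg (w : ℂ)]

lemma norm_coe_star (w : GaussianInt) : ‖((star w : GaussianInt) : ℂ)‖ = ‖(w : ℂ)‖ := by
  rw [GaussianInt.toComplex_star]; simp

/-- The rotation `a / conj a`. -/
def rot (a : GaussianInt) : G := jj a / jj (star a)

lemma norm_io_rot {a : GaussianInt} (ha : a ≠ 0) : ‖io (rot a)‖ = 1 := by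
  have := one_le_norm_coe ha
  rw [rot, map_div₀, io_jj, io_jj, norm_div, norm_coe_star, div_self (by linarith)]

/-- Invariance under all Gaussian rotations. -/
def TInv (ν : Measure X) : Prop :=
  ∀ a : GaussianInt, a ≠ 0 → MeasurePreserving (S (rot a)) ν ν

end Pool.Agent.MP_fc94d9_co

end
end

section

set_option autoImplicit false

open MeasureTheory Filter Topology Set

noncomputable section

namespace Pool.Agent.MP_fc94d9_co

instance : Countable GaussianInt :=
  Function.Injective.countable (f := fun w : GaussianInt => (w.re, w.im)) (by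
    intro a b h
    simp only [Prod.mk.injEq] at h
    exact Zsqrtd.ext h.1 h.2)

lemma jj_pp_ne : jj pp ≠ 0 := jj_ne_zero pp_ne
lemma jj_qq_ne : jj qq ≠ 0 := jj_ne_zero qq_ne

lemma jj_pq : jj pp * jj qq = 5 := by rw [← map_mul, pp_mul_qq]; exact map_ofNat jj 5

lemma ne_zero_of_coprime {a : GaussianInt} (h : IsCoprime a qq) : a ≠ 0 := by
  rintro rfl
  exact irreducible_qq.not_isUnit (isCoprime_zero_left.1 h)

/-- `5 ^ (-k)`. -/
def five (k : ℕ) : G := ((5 : G) ^ k)⁻¹

lemma five_eq (k : ℕ) : five k = (jj pp ^ k * jj qq ^ k)⁻¹ := by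
  rw [five, ← mul_pow, jj_pq]

/-- Number of cells at depth `k`. -/
def MM (k : ℕ) : ℕ := 2 * 5 ^ k

lemma MM_pos (k : ℕ) : 0 < MM k := by unfold MM; positivity

lemma MM_cast (k : ℕ) : (MM k : ℝ) = 2 * 5 ^ k := by simp [MM]

/-- The cell of the value at `5 ^ (-k)`. -/
def dig (k : ℕ) (θ : X) : ℕ := ⌊(MM k : ℝ) * L 0 (θ (five k))⌋₊

lemma L0_nonneg (t : T) : 0 ≤ L 0 t := (L_mem 0 t).1
lemma L0_lt (t : T) : L 0 t < 1 := by simpa using (L_mem 0 t).2

lemma dig_lt (k : ℕ) (θ : X) : dig k θ < MM k := by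
  have hM : (0 : ℝ) < MM k := by exact_mod_cast MM_pos k
  rw [dig, Nat.floor_lt (mul_nonneg hM.le (L0_nonneg _))]
  nlinarith [L0_lt (θ (five k))]

lemma measurable_dig (k : ℕ) : Measurable (dig k) :=
  Nat.measurable_floor.comp (((measurable_L 0).comp (measurable_eval _)).const_mul _)

lemma coe_nat_mul (n : ℕ) (x : ℝ) : (((n : ℝ) * x : ℝ) : T) = n • (x : T) := by
  rw [← AddCircle.coe_nsmul, nsmul_eq_mul]

lemma coe_int_eq_zero (n : ℤ) : (((n : ℝ)) : T) = 0 :=
  (AddCircle.coe_eq_zero_iff (1 : ℝ)).2 ⟨n, by simp⟩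

lemma L_five (k : ℕ) (θ : X) :
    L 0 (θ (five k)) = (dig k θ + L 0 (θ 2)) / MM k := by
  have hM : (0 : ℝ) < MM k := by exact_mod_cast MM_pos k
  set y : ℝ := (MM k : ℝ) * L 0 (θ (five k)) with hy
  have hy0 : 0 ≤ y := mul_nonneg hM.le (L0_nonneg _)
  have h1 : (y : T) = θ 2 := by
    rw [hy, coe_nat_mul, coe_L, ← map_nsmul]
    congr 1
    simp only [MM, five, nsmul_eq_mul]
    push_cast
    field_simp
  have h2 : ((Int.fract y : ℝ) : T) = θ 2 := by
    rw [← h1, Int.fract, AddCircle.coe_sub, coe_int_eq_zero, sub_zero]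
  have h3 : L 0 (θ 2) = Int.fract y := by
    rw [← h2]
    exact L_coe ⟨Int.fract_nonneg y, by simpa using Int.fract_lt_one y⟩
  have h4 : (dig k θ : ℝ) = (⌊y⌋ : ℝ) := natCast_floor_eq_intCast_floor hy0
  rw [h3, h4, Int.floor_add_fract, hy]
  field_simp

lemma dig_mod (k : ℕ) (θ : X) : dig k θ = dig (k + 1) θ % MM k := by
  have hM : (0 : ℝ) < MM k := by exact_mod_cast MM_pos k
  set J := dig (k + 1) θ
  set y := L 0 (θ 2)
  have hy0 : 0 ≤ y := L0_nonneg _
  have hy1 : y < 1 := L0_lt _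
  have h1 : θ (five k) = 5 • θ (five (k + 1)) := by
    rw [← map_nsmul]
    congr 1
    simp only [five, nsmul_eq_mul]
    push_cast
    field_simp
    ring
  have hJ : (J : ℝ) = (J % MM k : ℕ) + MM k * (J / MM k : ℕ) := by
    exact_mod_cast (Nat.mod_add_div J (MM k)).symm
  have h2 : θ (five k) = (((((J % MM k : ℕ) : ℝ) + y) / MM k : ℝ) : T) := by
    rw [h1, ← coe_L 0 (θ (five (k + 1))), ← coe_nat_mul, L_five]
    have : ((5 : ℕ) : ℝ) * (((J : ℝ) + y) / (MM (k + 1) : ℝ)) =
        (((J % MM k : ℕ) : ℝ) + y) / MM k + (((J / MM k : ℕ) : ℤ) : ℝ) := by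
      rw [Int.cast_natCast]
      have e : (MM (k + 1) : ℝ) = 5 * MM k := by simp only [MM_cast]; ring
      rw [e, hJ]
      simp only [Nat.cast_ofNat]
      field_simp
      rw [← hJ]
      linarith
    rw [this, AddCircle.coe_add, coe_int_eq_zero, add_zero]
  have hlt : ((J % MM k : ℕ) : ℝ) + 1 ≤ MM k := by
    exact_mod_cast Nat.mod_lt J (MM_pos k)
  have h3 : L 0 (θ (five k)) = (((J % MM k : ℕ) : ℝ) + y) / MM k := by
    rw [h2]
    apply L_coe
    constructor
    · positivity
    · rw [zero_add, div_lt_one hM]; linarith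
  rw [L_five, div_left_inj' hM.ne'] at h3
  have : (dig k θ : ℝ) = ((J % MM k : ℕ) : ℝ) := by linarith
  exact_mod_cast this

/-- The additive character of `ℤ / M`. -/
def om (M c d : ℕ) : ℂ := E ((((c : ℝ) * d / M : ℝ)) : T)

lemma om_orth {M d d' : ℕ} (hd : d < M) (hd' : d' < M) :
    ∑ c ∈ Finset.range M, om M c d * (starRingEnd ℂ) (om M c d') =
      if d = d' then (M : ℂ) else 0 := by
  have hM : (0 : ℝ) < M := by exact_mod_cast (Nat.zero_lt_of_lt hd)
  set t : T := ((((d : ℝ) - d') / M : ℝ) : T) with ht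
  have h1 : ∀ c : ℕ, om M c d * (starRingEnd ℂ) (om M c d') = E t ^ c := by
    intro c
    rw [om, om, ← E_neg, ← E_add, ← E_nsmul, ht, ← coe_nat_mul, ← AddCircle.coe_neg,
      ← AddCircle.coe_add]
    congr 2
    ring
  simp only [h1]
  split_ifs with h
  · subst h; simp [ht]
  · have hne : E t ≠ 1 := by
      intro h1
      have h2 : t = 0 := E_inj (by rw [h1, E_zero])
      have h3 : ((d : ℝ) - d') / M = 0 := by
        apply coe_eq_zero_of_abs_lt h2
        rw [abs_div, abs_of_pos hM, div_lt_one hM, abs_lt]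
        have a1 : (d : ℝ) < M := by exact_mod_cast hd
        have a2 : (d' : ℝ) < M := by exact_mod_cast hd'
        have a3 : (0 : ℝ) ≤ d := by positivity
        have a4 : (0 : ℝ) ≤ d' := by positivity
        constructor <;> linarith
      rw [div_eq_zero_iff] at h3
      rcases h3 with h3 | h3
      · exact h (by exact_mod_cast sub_eq_zero.1 h3)
      · exact hM.ne' h3
    have hpow : E t ^ M = 1 := by
      rw [← E_nsmul, ht, ← coe_nat_mul]
      have : (M : ℝ) * (((d : ℝ) - d') / M) = (((d : ℤ) - d' : ℤ) : ℝ) := by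
        push_cast; field_simp
      rw [this, coe_int_eq_zero, E_zero]
    rw [geom_sum_eq hne, hpow]; simp

lemma parseval (M : ℕ) (a : ℕ → ℝ) :
    ∑ c ∈ Finset.range M, ‖∑ d ∈ Finset.range M, (a d : ℂ) * om M c d‖ ^ 2 =
      M * ∑ d ∈ Finset.range M, a d ^ 2 := by
  have h : ∀ c, ((‖∑ d ∈ Finset.range M, (a d : ℂ) * om M c d‖ ^ 2 : ℝ) : ℂ) =
      ∑ d ∈ Finset.range M, ∑ d' ∈ Finset.range M,
        (a d : ℂ) * a d' * (om M c d * (starRingEnd ℂ) (om M c d')) := by
    intro c
    rw [← Complex.normSq_eq_norm_sq, ← Complex.mul_conj, map_sum, Finset.sum_mul_sum]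
    refine Finset.sum_congr rfl fun d _ => Finset.sum_congr rfl fun d' _ => ?_
    rw [map_mul, Complex.conj_ofReal]; ring
  apply Complex.ofReal_injective
  rw [Complex.ofReal_sum]
  simp only [h]
  rw [Finset.sum_comm]
  push_cast
  rw [Finset.mul_sum]
  refine Finset.sum_congr rfl fun d hd => ?_
  rw [Finset.sum_comm]
  have : ∀ d' ∈ Finset.range M, ∑ c ∈ Finset.range M,
      (a d : ℂ) * a d' * (om M c d * (starRingEnd ℂ) (om M c d')) =
      if d = d' then (a d : ℂ) * a d' * M else 0 := by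
    intro d' hd'
    rw [← Finset.mul_sum, om_orth (Finset.mem_range.1 hd) (Finset.mem_range.1 hd')]
    split_ifs <;> simp
  rw [Finset.sum_congr rfl this, Finset.sum_ite_eq, if_pos hd]
  ring

/-- Fractions with denominator prime to `2 - i`. -/
def Idx : Type := {p : GaussianInt × GaussianInt // IsCoprime p.2 qq}

instance : Countable Idx := inferInstanceAs
  (Countable {p : GaussianInt × GaussianInt // IsCoprime p.2 qq})

/-- The element of `G` given by a fraction. -/
def Idx.el (i : Idx) : G := jj i.1.1 / jj i.1.2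

lemma host_identity {z : GaussianInt} (hz : IsCoprime z qq) (k c : ℕ) :
    ∃ a : GaussianInt, a ≠ 0 ∧ ∃ i : Idx, rot a * jj z = c • five (k + 1) + i.el := by
  set K := k + 1 with hK
  set b : GaussianInt := c * pp ^ K + star z * qq ^ (3 * K) with hb
  have hsb : star b = z * pp ^ (3 * K) + qq * (c * qq ^ k) := by
    simp only [hb, star_add, star_mul, star_pow, star_natCast, star_star, star_pp, star_qq, hK]
    ring
  have hcop : IsCoprime (star b) qq := by
    rw [hsb]
    exact (hz.mul_left coprime_pp_qq.pow_left).add_mul_left_left _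
  have hsb0 : star b ≠ 0 := ne_zero_of_coprime hcop
  have hb0 : b ≠ 0 := by intro h; exact hsb0 (by simp [h])
  refine ⟨pp ^ K * b, mul_ne_zero (pow_ne_zero _ pp_ne) hb0,
    ⟨(z * star z * (pp * qq) ^ (2 * K) - c ^ 2, pp ^ K * star b),
      coprime_pp_qq.pow_left.mul_left hcop⟩, ?_⟩
  have h1 := jj_ne_zero hsb0
  have hP := jj_pp_ne
  have hQ := jj_qq_ne
  have e1 : jj (star b) = jj z * (jj pp ^ K) ^ 3 + c * jj qq ^ K := by
    rw [hsb]; simp only [map_add, map_mul, map_pow, map_natCast, hK]; ring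
  have e2 : jj b = c * jj pp ^ K + jj (star z) * (jj qq ^ K) ^ 3 := by
    rw [hb]; simp only [map_add, map_mul, map_pow, map_natCast]; ring
  have e3 : (jj pp * jj qq) ^ (2 * K) = (jj pp ^ K) ^ 2 * (jj qq ^ K) ^ 2 := by ring
  simp only [rot, Idx.el, five_eq, star_mul, star_pow, star_pp, map_mul, map_pow, map_sub,
    map_natCast, nsmul_eq_mul, e3]
  have hu : jj pp ^ K ≠ 0 := pow_ne_zero _ hP
  have hv : jj qq ^ K ≠ 0 := pow_ne_zero _ hQ
  generalize jj pp ^ K = u at *
  generalize jj qq ^ K = v at *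
  field_simp
  rw [e1, e2]
  ring

lemma van_refine {ψ : X} {N : GaussianInt} (hN : IsCoprime N qq) (k : ℕ)
    (h1 : Van ψ (jj N * jj pp ^ k)⁻¹) (h2 : ψ (five k) = 0) :
    Van ψ ((jj N * jj pp ^ k)⁻¹ / jj qq ^ k) := by
  intro w
  have hc : IsCoprime (pp ^ k * N) (qq ^ k) :=
    (coprime_pp_qq.pow_left.mul_left hN).pow_right
  obtain ⟨x, y, hxy⟩ := hc
  set e := w * x * pp ^ k with he
  have htr : e + star e = ((2 * e.re : ℤ) : GaussianInt) := by
    ext <;> simp [two_mul]
  have hw : w = ((2 * e.re : ℤ) : GaussianInt) * N + qq ^ k * (w * y - star (w * x) * N) := by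
    rw [← htr, he, star_mul, star_pow, star_pp]
    linear_combination (-w) * hxy
  have hN0 := jj_ne_zero (ne_zero_of_coprime hN)
  have hu : jj pp ^ k ≠ 0 := pow_ne_zero _ jj_pp_ne
  have hv : jj qq ^ k ≠ 0 := pow_ne_zero _ jj_qq_ne
  have : (jj N * jj pp ^ k)⁻¹ / jj qq ^ k * jj w =
      (2 * e.re : ℤ) • five k + (jj N * jj pp ^ k)⁻¹ * jj (w * y - star (w * x) * N) := by
    conv_lhs => rw [hw]
    rw [map_add, map_mul, map_mul, map_pow, map_intCast, five_eq, zsmul_eq_mul]
    field_simp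
  rw [this, map_add, map_zsmul, h2, h1]; simp

end Pool.Agent.MP_fc94d9_co

end
end

section

set_option autoImplicit false

open MeasureTheory Filter Topology Set

noncomputable section

namespace Pool.Agent.MP_fc94d9_co

/-- Restriction of a character to the local ring at `2 - i`. -/
def res (θ : X) : Idx → T := fun i => θ i.el

lemma continuous_res : Continuous res := continuous_pi fun i => continuous_eval i.el

lemma measurable_res : Measurable res := continuous_res.measurable

/-- The sigma-algebra of the restriction. -/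
@[reducible] def mA : MeasurableSpace X := MeasurableSpace.comap res inferInstance

lemma mA_le : mA ≤ (inferInstance : MeasurableSpace X) := measurable_res.comap_le

lemma measurable_mA_eval (i : Idx) : Measurable[mA] (fun θ : X => θ i.el) :=
  (measurable_pi_apply i).comp (comap_measurable res)

lemma measurable_mA_two : Measurable[mA] (fun θ : X => θ 2) := by
  have := measurable_mA_eval ⟨(2, 1), isCoprime_one_left⟩
  have e : Idx.el ⟨(2, 1), isCoprime_one_left⟩ = 2 := by
    simp only [Idx.el, map_one, div_one]; exact map_ofNat jj 2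
  rwa [e] at this

/-- Indicator of a cell. -/
def ind (k d : ℕ) : X → ℝ := fun θ => if dig k θ = d then 1 else 0

lemma measurable_ind (k d : ℕ) : Measurable (ind k d) :=
  Measurable.ite (measurable_dig k (measurableSet_singleton d)) measurable_const measurable_const

lemma ind_nonneg (k d : ℕ) (θ : X) : 0 ≤ ind k d θ := by unfold ind; split_ifs <;> norm_num

lemma norm_ind_le (k d : ℕ) (θ : X) : ‖ind k d θ‖ ≤ 1 := by unfold ind; split_ifs <;> norm_num

lemma sum_ind_smul {F : Type*} [AddCommGroup F] [Module ℝ F] (k : ℕ) (θ : X) (f : ℕ → F) :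
    ∑ d ∈ Finset.range (MM k), ind k d θ • f d = f (dig k θ) := by
  simp only [ind, ite_smul, one_smul, zero_smul]
  rw [Finset.sum_ite_eq, if_pos (Finset.mem_range.2 (dig_lt k θ))]

variable (ν : Measure X) [IsFiniteMeasure ν]

lemma integrable_ind (k d : ℕ) : Integrable (ind k d) ν :=
  integrable_of_bdd (measurable_ind k d).aestronglyMeasurable 1 (norm_ind_le k d)

/-- Conditional probability of a cell. -/
def ww (k d : ℕ) : X → ℝ := ν[ind k d | mA]

omit [IsFiniteMeasure ν] in
lemma sm_ww (k d : ℕ) : StronglyMeasurable[mA] (ww ν k d) := stronglyMeasurable_condExp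

omit [IsFiniteMeasure ν] in
lemma measurable_ww (k d : ℕ) : Measurable (ww ν k d) :=
  ((sm_ww ν k d).mono mA_le).measurable

omit [IsFiniteMeasure ν] in
lemma ww_nonneg (k d : ℕ) : 0 ≤ᵐ[ν] ww ν k d :=
  condExp_nonneg (Eventually.of_forall (ind_nonneg k d))

lemma sum_ww (k : ℕ) : ∀ᵐ θ ∂ν, ∑ d ∈ Finset.range (MM k), ww ν k d θ = 1 := by
  have h1 := condExp_finsetSum (μ := ν) (s := Finset.range (MM k)) (f := fun d => ind k d)
    (fun d _ => integrable_ind ν k d) mA
  have h2 : (∑ d ∈ Finset.range (MM k), ind k d) = fun _ => (1 : ℝ) := by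
    funext θ
    have := sum_ind_smul k θ (fun _ => (1 : ℝ))
    simpa using this
  rw [h2, condExp_const mA_le] at h1
  filter_upwards [h1] with θ h
  simpa [ww] using h.symm

/-- The full-measure set where the conditional probabilities form a probability vector. -/
def Good (k : ℕ) : Set X :=
  {θ | (∀ d, 0 ≤ ww ν k d θ) ∧ ∑ d ∈ Finset.range (MM k), ww ν k d θ = 1}

lemma ae_good (k : ℕ) : ∀ᵐ θ ∂ν, θ ∈ Good ν k := by
  filter_upwards [ae_all_iff.2 (ww_nonneg ν k), sum_ww ν k] with θ h1 h2 using ⟨h1, h2⟩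

omit [IsFiniteMeasure ν] in
lemma measurableSet_good (k : ℕ) : MeasurableSet (Good ν k) := by
  have h1 : MeasurableSet {θ | ∀ d, 0 ≤ ww ν k d θ} := by
    rw [ofPred_forall]
    exact MeasurableSet.iInter fun d => measurableSet_le measurable_const (measurable_ww ν k d)
  exact h1.inter (measurableSet_eq_fun
    (Finset.measurable_sum _ fun d _ => measurable_ww ν k d) measurable_const)

omit [IsFiniteMeasure ν] in
lemma Good.le_one {k : ℕ} {θ : X} (h : θ ∈ Good ν k) {d : ℕ} (hd : d < MM k) :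
    ww ν k d θ ≤ 1 := by
  rw [← h.2]
  exact Finset.single_le_sum (fun i _ => h.1 i) (Finset.mem_range.2 hd)

lemma norm_ww_le {k d : ℕ} (hd : d < MM k) : ∀ᵐ θ ∂ν, ‖ww ν k d θ‖ ≤ 1 := by
  filter_upwards [ae_good ν k] with θ h
  rw [Real.norm_eq_abs, abs_of_nonneg (h.1 d)]
  exact Good.le_one ν h hd

lemma integral_ind_smul {F : Type*} [NormedAddCommGroup F] [NormedSpace ℝ F] [CompleteSpace F]
    (k d : ℕ) {g : X → F} (hg : StronglyMeasurable[mA] g) (hC : ∀ᵐ θ ∂ν, ‖g θ‖ ≤ 1) :
    ∫ θ, ind k d θ • g θ ∂ν = ∫ θ, ww ν k d θ • g θ ∂ν := by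
  have hi : Integrable (ind k d • g) ν := by
    refine Integrable.of_bound ((measurable_ind k d).aestronglyMeasurable.smul
      (hg.mono mA_le).aestronglyMeasurable) 1 ?_
    filter_upwards [hC] with θ h
    rw [Pi.smul_apply', norm_smul]
    exact mul_le_one₀ (norm_ind_le k d θ) (norm_nonneg _) h
  have h1 := condExp_smul_of_aestronglyMeasurable_right (m := mA) (integrable_ind ν k d) hi
    hg.aestronglyMeasurable
  have h2 := integral_congr_ae h1
  rw [integral_condExp mA_le] at h2
  exact h2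

/-- Conditional probability of the own cell. -/
def WW (k : ℕ) (θ : X) : ℝ := ww ν k (dig k θ) θ

omit [IsFiniteMeasure ν] in
lemma WW_eq (k : ℕ) (θ : X) :
    WW ν k θ = ∑ d ∈ Finset.range (MM k), ind k d θ • ww ν k d θ :=
  (sum_ind_smul k θ (fun d => ww ν k d θ)).symm

omit [IsFiniteMeasure ν] in
lemma measurable_WW (k : ℕ) : Measurable (WW ν k) := by
  have : WW ν k = fun θ => ∑ d ∈ Finset.range (MM k), ind k d θ • ww ν k d θ :=
    funext (WW_eq ν k)
  rw [this]
  exact Finset.measurable_sum _ fun d _ => (measurable_ind k d).smul (measurable_ww ν k d)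

lemma integrable_ww_sq {k d : ℕ} (hd : d < MM k) : Integrable (fun θ => ww ν k d θ ^ 2) ν := by
  refine Integrable.of_bound ((measurable_ww ν k d).pow_const 2).aestronglyMeasurable 1 ?_
  filter_upwards [norm_ww_le ν hd] with θ h
  rw [norm_pow]; exact pow_le_one₀ (norm_nonneg _) h

lemma integral_WW (k : ℕ) :
    ∫ θ, WW ν k θ ∂ν = ∫ θ, ∑ d ∈ Finset.range (MM k), ww ν k d θ ^ 2 ∂ν := by
  simp only [WW_eq]
  rw [integral_finsetSum, integral_finsetSum]
  · refine Finset.sum_congr rfl fun d hd => ?_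
    rw [integral_ind_smul ν k d (sm_ww ν k d) (norm_ww_le ν (Finset.mem_range.1 hd))]
    simp [sq]
  · exact fun d hd => integrable_ww_sq ν (Finset.mem_range.1 hd)
  · intro d hd
    refine Integrable.of_bound ((measurable_ind k d).smul
      (measurable_ww ν k d)).aestronglyMeasurable 1 ?_
    filter_upwards [norm_ww_le ν (Finset.mem_range.1 hd)] with θ h
    rw [norm_smul]
    exact mul_le_one₀ (norm_ind_le k d θ) (norm_nonneg _) h

lemma norm_phi_le_one_c (hT : TInv ν) {z : GaussianInt} (hz : IsCoprime z qq) (k c : ℕ) :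
    ‖phi ν (jj z)‖ ≤ ∫ θ, ‖∑ d ∈ Finset.range (MM (k + 1)),
      (ww ν (k + 1) d θ : ℂ) * om (MM (k + 1)) c d‖ ∂ν := by
  obtain ⟨a, ha, i, hi⟩ := host_identity hz k c
  set K := k + 1
  rw [← phi_mul (hT a ha), hi]
  set g : X → ℂ := fun θ => E (θ i.el) * E ((((c : ℝ) * L 0 (θ 2) / MM K : ℝ)) : T) with hg
  have hgm : Measurable[mA] g := by
    have h1 : Measurable[mA] (fun θ : X => E (θ i.el)) :=
      continuous_E.measurable.comp (measurable_mA_eval i)
    have h2 : Measurable (fun t : T => E ((((c : ℝ) * L 0 t / MM K : ℝ)) : T)) := by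
      refine continuous_E.measurable.comp ((AddCircle.continuous_mk' 1).measurable.comp ?_)
      exact ((measurable_L 0).const_mul _).div_const _
    exact h1.mul (h2.comp measurable_mA_two)
  have hg1 : ∀ θ, ‖g θ‖ = 1 := by intro θ; simp [hg]
  have hom : ∀ d, ‖om (MM K) c d‖ = 1 := by intro d; simp [om]
  have hpt : ∀ θ : X, E (θ (c • five K + i.el)) =
      ∑ d ∈ Finset.range (MM K), ind K d θ • (om (MM K) c d * g θ) := by
    intro θ
    rw [sum_ind_smul K θ (fun d => om (MM K) c d * g θ), map_add, map_nsmul, E_add,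
      ← coe_L 0 (θ (five K)), ← coe_nat_mul, L_five, hg, om]
    have : (c : ℝ) * ((dig K θ + L 0 (θ 2)) / MM K) =
        (c : ℝ) * dig K θ / MM K + (c : ℝ) * L 0 (θ 2) / MM K := by ring
    rw [this, AddCircle.coe_add, E_add]; ring
  have hsm : ∀ d, StronglyMeasurable[mA] (fun θ => om (MM K) c d * g θ) := fun d =>
    (hgm.const_mul _).stronglyMeasurable
  have hb : ∀ d θ, ‖om (MM K) c d * g θ‖ ≤ 1 := by intro d θ; rw [norm_mul, hom, hg1]; simp
  have e : phi ν (c • five K + i.el) =
      ∫ θ, ∑ d ∈ Finset.range (MM K), ww ν K d θ • (om (MM K) c d * g θ) ∂ν := by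
    unfold phi
    simp only [hpt]
    rw [integral_finsetSum, integral_finsetSum]
    · exact Finset.sum_congr rfl fun d _ =>
        integral_ind_smul ν K d (hsm d) (Eventually.of_forall (hb d))
    · intro d hd
      refine Integrable.of_bound ((measurable_ww ν K d).aestronglyMeasurable.smul
        ((hsm d).mono mA_le).aestronglyMeasurable) 1 ?_
      filter_upwards [norm_ww_le ν (Finset.mem_range.1 hd)] with θ h
      rw [norm_smul]
      exact mul_le_one₀ h (norm_nonneg _) (hb d θ)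
    · intro d _
      refine Integrable.of_bound ((measurable_ind K d).aestronglyMeasurable.smul
        ((hsm d).mono mA_le).aestronglyMeasurable) 1 (Eventually.of_forall fun θ => ?_)
      rw [norm_smul]
      exact mul_le_one₀ (norm_ind_le K d θ) (norm_nonneg _) (hb d θ)
  rw [e]
  refine (norm_integral_le_integral_norm _).trans (le_of_eq ?_)
  congr 1
  funext θ
  have : ∑ d ∈ Finset.range (MM K), ww ν K d θ • (om (MM K) c d * g θ) =
      (∑ d ∈ Finset.range (MM K), (ww ν K d θ : ℂ) * om (MM K) c d) * g θ := by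
    rw [Finset.sum_mul]
    refine Finset.sum_congr rfl fun d _ => ?_
    rw [Complex.real_smul]; ring
  rw [this, norm_mul, hg1, mul_one]

lemma host_bound (hT : TInv ν) {z : GaussianInt} (hz : IsCoprime z qq) (k : ℕ) {t : ℝ}
    (ht : 0 < t) :
    ‖phi ν (jj z)‖ ≤ t * ν.real univ / 2 + (∫ θ, WW ν (k + 1) θ ∂ν) / (2 * t) := by
  set K := k + 1
  have hM : (0 : ℝ) < MM K := by exact_mod_cast MM_pos K
  set F : ℕ → X → ℝ := fun c θ =>
    ‖∑ d ∈ Finset.range (MM K), (ww ν K d θ : ℂ) * om (MM K) c d‖ with hF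
  have hFi : ∀ c, Integrable (F c) ν := by
    intro c
    refine Integrable.norm (integrable_finsetSum _ fun d _ => ?_)
    exact (Integrable.ofReal (integrable_condExp)).mul_const _
  have h1 : (MM K : ℝ) * ‖phi ν (jj z)‖ ≤ ∫ θ, ∑ c ∈ Finset.range (MM K), F c θ ∂ν := by
    rw [integral_finsetSum _ fun c _ => hFi c]
    have := Finset.sum_le_sum (s := Finset.range (MM K))
      fun c _ => norm_phi_le_one_c ν hT hz k c
    simpa using this
  have hsq : Integrable (fun θ => ∑ d ∈ Finset.range (MM K), ww ν K d θ ^ 2) ν :=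
    integrable_finsetSum _ fun d hd => integrable_ww_sq ν (Finset.mem_range.1 hd)
  have h2 : ∫ θ, ∑ c ∈ Finset.range (MM K), F c θ ∂ν ≤
      ∫ θ, (MM K * (t / 2) + MM K / (2 * t) * ∑ d ∈ Finset.range (MM K), ww ν K d θ ^ 2) ∂ν := by
    apply integral_mono (integrable_finsetSum _ fun c _ => hFi c)
      ((integrable_const _).add (hsq.const_mul _))
    intro θ
    have hp := parseval (MM K) (fun d => ww ν K d θ)
    have : ∀ c ∈ Finset.range (MM K), F c θ ≤ t / 2 + F c θ ^ 2 / (2 * t) := by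
      intro c _
      have : 0 ≤ (F c θ - t) ^ 2 / (2 * t) := by positivity
      have e : (F c θ - t) ^ 2 / (2 * t) = t / 2 + F c θ ^ 2 / (2 * t) - F c θ := by
        field_simp; ring
      linarith
    refine (Finset.sum_le_sum this).trans (le_of_eq ?_)
    have hp' : ∑ c ∈ Finset.range (MM K), F c θ ^ 2 / (2 * t) =
        (MM K * ∑ d ∈ Finset.range (MM K), ww ν K d θ ^ 2) / (2 * t) := by
      rw [← Finset.sum_div, ← hp]
    rw [Finset.sum_add_distrib, hp']
    simp only [Finset.sum_const, Finset.card_range, nsmul_eq_mul, Pi.add_apply]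
    ring
  rw [integral_add (integrable_const _) (hsq.const_mul _), integral_const, integral_const_mul,
    ← integral_WW] at h2
  have h3 := h1.trans h2
  simp only [smul_eq_mul] at h3
  have : (MM K : ℝ) * ‖phi ν (jj z)‖ ≤
      MM K * (t * ν.real univ / 2 + (∫ θ, WW ν K θ ∂ν) / (2 * t)) := by
    refine h3.trans (le_of_eq ?_); ring
  exact le_of_mul_le_mul_left this hM

lemma WW_mono (k : ℕ) : ∀ᵐ θ ∂ν, WW ν (k + 1) θ ≤ WW ν k θ := by
  have h : ∀ d, ww ν (k + 1) d ≤ᵐ[ν] ww ν k (d % MM k) := by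
    intro d
    refine condExp_mono (integrable_ind ν _ _) (integrable_ind ν _ _)
      (Eventually.of_forall fun θ => ?_)
    unfold ind
    split_ifs with h1 h2 h2
    · exact le_rfl
    · exact absurd (by rw [dig_mod, h1]) h2
    · exact zero_le_one
    · exact le_rfl
  filter_upwards [ae_all_iff.2 h] with θ hθ
  unfold WW
  rw [dig_mod k θ]
  exact hθ _

/-- The set of characters predicted at all depths with conditional probability at least `c`. -/
def E0 (c : ℝ) : Set X := {θ | ∀ k, c ≤ WW ν (k + 1) θ}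

omit [IsFiniteMeasure ν] in
lemma measurableSet_E0 (c : ℝ) : MeasurableSet (E0 ν c) := by
  rw [E0, ofPred_forall]
  exact MeasurableSet.iInter fun k => measurableSet_le measurable_const (measurable_WW ν _)

lemma exists_E0 (hT : TInv ν) {z : GaussianInt} (hz : IsCoprime z qq)
    (hφ : phi ν (jj z) ≠ 0) : ∃ c : ℝ, 0 < c ∧ ν (E0 ν c) ≠ 0 := by
  set m := ν.real univ with hm
  have hm0 : 0 ≤ m := measureReal_nonneg
  have hp : 0 < ‖phi ν (jj z)‖ := norm_pos_iff.2 hφ
  set t := ‖phi ν (jj z)‖ / (m + 1) with ht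
  have ht0 : 0 < t := by positivity
  set a := t * ‖phi ν (jj z)‖ with ha
  have ha0 : 0 < a := by positivity
  have hW : ∀ k, a ≤ ∫ θ, WW ν (k + 1) θ ∂ν := by
    intro k
    have h1 := host_bound ν hT hz k ht0
    have h2 : t * m ≤ ‖phi ν (jj z)‖ := by
      rw [ht, div_mul_eq_mul_div, div_le_iff₀ (by positivity)]; nlinarith
    have h3 : ‖phi ν (jj z)‖ / 2 ≤ (∫ θ, WW ν (k + 1) θ ∂ν) / (2 * t) := by linarith
    rw [div_le_div_iff₀ (by norm_num) (by positivity)] at h3
    nlinarith
  set c := a / (2 * (m + 1)) with hc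
  have hc0 : 0 < c := by positivity
  have hcm : c * m ≤ a / 2 := by
    rw [hc, div_mul_eq_mul_div, div_le_div_iff₀ (by positivity) (by norm_num)]; nlinarith
  have hA : ∀ k, MeasurableSet {θ | c ≤ WW ν (k + 1) θ} := fun k =>
    measurableSet_le measurable_const (measurable_WW ν _)
  have hlow : ∀ k, a / 2 ≤ ν.real {θ | c ≤ WW ν (k + 1) θ} := by
    intro k
    have hb : ∀ᵐ θ ∂ν, ‖WW ν (k + 1) θ‖ ≤ 1 := by
      filter_upwards [ae_good ν (k + 1)] with θ h
      rw [Real.norm_eq_abs, WW, abs_of_nonneg (h.1 _)]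
      exact Good.le_one ν h (dig_lt _ _)
    have h1 : ∫ θ, WW ν (k + 1) θ ∂ν ≤
        ∫ θ, (c + {θ | c ≤ WW ν (k + 1) θ}.indicator 1 θ) ∂ν := by
      apply integral_mono_ae (Integrable.of_bound (measurable_WW ν _).aestronglyMeasurable 1 hb)
        ((integrable_const _).add ((integrable_const 1).indicator (hA k)))
      filter_upwards [hb] with θ h
      by_cases hθ : θ ∈ {θ | c ≤ WW ν (k + 1) θ}
      · simp only [Pi.add_apply, indicator_of_mem hθ]
        have := (le_abs_self _).trans h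
        linarith
      · simp only [Pi.add_apply, indicator_of_notMem hθ]
        have : WW ν (k + 1) θ < c := not_le.1 hθ
        linarith
    rw [integral_add (integrable_const _) ((integrable_const 1).indicator (hA k)),
      integral_const, integral_indicator_one (hA k)] at h1
    have := hW k
    simp only [smul_eq_mul] at h1
    nlinarith
  let Fk : ℕ → Set X := fun n => {θ | ∀ k ≤ n, c ≤ WW ν (k + 1) θ}
  have hFm : ∀ n, MeasurableSet (Fk n) := by
    intro n
    have : Fk n = ⋂ k, ⋂ (_ : k ≤ n), {θ | c ≤ WW ν (k + 1) θ} := by ext; simp [Fk]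
    rw [this]
    exact MeasurableSet.iInter fun k => MeasurableSet.iInter fun _ => hA k
  have hFa : Antitone Fk := fun a b hab θ hθ k hk => hθ k (hk.trans hab)
  have hsub : ∀ n, {θ | c ≤ WW ν (n + 1) θ} ≤ᵐ[ν] Fk n := by
    intro n
    filter_upwards [ae_all_iff.2 (WW_mono ν)] with θ hθ h k hk
    have hanti : Antitone (fun k => WW ν k θ) := antitone_nat_of_succ_le hθ
    exact le_trans h (hanti (Nat.succ_le_succ hk))
  have hlim := tendsto_measure_iInter_atTop (μ := ν) (fun n => (hFm n).nullMeasurableSet) hFa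
    ⟨0, measure_ne_top _ _⟩
  have hlim2 : Tendsto (fun n => ν.real (Fk n)) atTop (𝓝 (ν.real (⋂ n, Fk n))) :=
    (ENNReal.tendsto_toReal (measure_ne_top _ _)).comp hlim
  have hge : a / 2 ≤ ν.real (⋂ n, Fk n) := by
    refine ge_of_tendsto' hlim2 fun n => (hlow n).trans ?_
    exact ENNReal.toReal_mono (measure_ne_top _ _) (measure_mono_ae (hsub n))
  have hE : (⋂ n, Fk n) = E0 ν c := by
    ext θ
    simp only [mem_iInter, Fk, E0, mem_ofPred_eq]
    exact ⟨fun h k => h k k le_rfl, fun h n k _ => h k⟩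
  refine ⟨c, hc0, fun h0 => ?_⟩
  rw [hE, Measure.real, h0] at hge
  simp at hge
  linarith

end Pool.Agent.MP_fc94d9_co

end
end

section

set_option autoImplicit false

open MeasureTheory Filter Topology Set

noncomputable section

namespace Pool.Agent.MP_fc94d9_co

/-- List prediction: among more than `l` characters of `K` that agree on `γ ℤ[i]` up to
frequencies that are `η`-close, two agree on `γ' ℤ[i]`. -/
def LP (K : Set X) (γ γ' : G) (η : ℝ) (l : ℕ) : Prop :=
  ∀ (s : Finset (T × T)) (θ : T × T → X) (ξ : T × T → ℂ), (∀ i ∈ s, θ i ∈ K) →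
    (∀ i ∈ s, ∀ i' ∈ s, ‖ξ i - ξ i'‖ ≤ η) →
    (∀ i ∈ s, ∀ i' ∈ s, Van (θ i - chi (ξ i) - (θ i' - chi (ξ i'))) γ) → l < s.card →
    ∃ i ∈ s, ∃ i' ∈ s, i ≠ i' ∧ Van (θ i - chi (ξ i) - (θ i' - chi (ξ i'))) γ'

lemma LP.rotate {K : Set X} {γ γ' : G} {η : ℝ} {l : ℕ} (h : LP K γ γ' η l) {u : G}
    (hu : ‖io u‖ = 1) : LP (S u ⁻¹' K) (u * γ) (u * γ') η l := by
  intro s θ ξ h1 h2 h3 h4
  have e : ∀ i i', S u (θ i) - chi (ξ i * io u) - (S u (θ i') - chi (ξ i' * io u)) =
      S u (θ i - chi (ξ i) - (θ i' - chi (ξ i'))) := by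
    intro i i'; simp only [S_sub, S_chi]
  obtain ⟨i, hi, i', hi', hne, hv⟩ := h s (fun i => S u (θ i)) (fun i => ξ i * io u) h1
    (fun i hi i' hi' => by rw [← sub_mul, norm_mul, hu, mul_one]; exact h2 i hi i' hi')
    (fun i hi i' hi' => by rw [e, van_S]; exact h3 i hi i' hi') h4
  exact ⟨i, hi, i', hi', hne, by rwa [e, van_S] at hv⟩

lemma LP.change {K : Set X} {γ γ' δ δ' : G} {η : ℝ} {l : ℕ} (h : LP K γ γ' η l)
    (h1 : ∀ ψ, Van ψ δ → Van ψ γ) (h2 : ∀ ψ, Van ψ δ → Van ψ γ' → Van ψ δ') :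
    LP K δ δ' η l := by
  intro s θ ξ a1 a2 a3 a4
  obtain ⟨i, hi, i', hi', hne, hv⟩ := h s θ ξ a1 a2
    (fun i hi i' hi' => h1 _ (a3 i hi i' hi')) a4
  exact ⟨i, hi, i', hi', hne, h2 _ (a3 i hi i' hi') hv⟩

lemma LP.iUnion {K : ℕ → Set X} {γ γ' : G} {η : ℝ} {l n : ℕ}
    (h : ∀ j < n, LP (K j) γ γ' η l) : LP (⋃ j ∈ Finset.range n, K j) γ γ' η (n * l) := by
  classical
  intro s θ ξ a1 a2 a3 a4
  have : ∀ i, ∃ j, i ∈ s → j ∈ Finset.range n ∧ θ i ∈ K j := by
    intro i
    by_cases hi : i ∈ s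
    · obtain ⟨j, hj, hj'⟩ := mem_iUnion₂.1 (a1 i hi)
      exact ⟨j, fun _ => ⟨hj, hj'⟩⟩
    · exact ⟨0, fun h => absurd h hi⟩
  choose f hf using this
  obtain ⟨j, hj, hc⟩ := Finset.exists_lt_card_fiber_of_mul_lt_card_of_maps_to
    (s := s) (t := Finset.range n) (f := f) (n := l) (fun i hi => (hf i hi).1) (by simpa using a4)
  have hs : ∀ i ∈ s.filter (fun i => f i = j), i ∈ s := fun i hi => (Finset.mem_filter.1 hi).1
  obtain ⟨i, hi, i', hi', hne, hv⟩ := h j (Finset.mem_range.1 hj) _ θ ξ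
    (fun i hi => by
      have := (hf i (hs i hi)).2
      rwa [(Finset.mem_filter.1 hi).2] at this)
    (fun i hi i' hi' => a2 i (hs i hi) i' (hs i' hi'))
    (fun i hi i' hi' => a3 i (hs i hi) i' (hs i' hi')) hc
  exact ⟨i, hs i hi, i', hs i' hi', hne, hv⟩

lemma pi_unif {U : Set ((Idx → T) × (Idx → T))} (hU : U ∈ uniformity (Idx → T)) :
    ∃ (I : Finset Idx) (t : ℝ), 0 < t ∧
      ∀ x y : Idx → T, (∀ i ∈ I, dist (x i) (y i) < t) → (x, y) ∈ U := by
  classical
  rw [Pi.uniformity] at hU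
  refine iInf_sets_induct hU (p := fun U => ∃ (I : Finset Idx) (t : ℝ), 0 < t ∧
      ∀ x y : Idx → T, (∀ i ∈ I, dist (x i) (y i) < t) → (x, y) ∈ U) ?_ ?_
  · exact ⟨∅, 1, one_pos, fun _ _ _ => mem_univ _⟩
  · rintro i s₁ s₂ h1 ⟨I, t, ht, h⟩
    obtain ⟨V, hV, hVs⟩ := mem_comap.1 h1
    obtain ⟨t', ht', hV'⟩ := Metric.mem_uniformity_dist.1 hV
    refine ⟨insert i I, min t t', lt_min ht ht', fun x y hxy => ⟨hVs ?_, h x y ?_⟩⟩
    · exact hV' ((hxy i (Finset.mem_insert_self _ _)).trans_le (min_le_right _ _))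
    · exact fun j hj => (hxy j (Finset.mem_insert_of_mem hj)).trans_le (min_le_left _ _)

lemma norm_chi_le (ξ : ℂ) (z : G) : ‖chi ξ z‖ ≤ ‖ξ‖ * ‖io z‖ := by
  rw [chi_apply]
  refine QuotientAddGroup.norm_mk_le_norm.trans ?_
  rw [Real.norm_eq_abs, ← norm_mul]
  exact Complex.abs_re_le_norm _

lemma norm_io_five (k : ℕ) : ‖io (five k)‖ = ((5 : ℝ) ^ k)⁻¹ := by
  simp [five, map_ofNat]

lemma same_digit {θ θ' : X} {ξ ξ' : ℂ} {k : ℕ} (hd : dig k θ = dig k θ')
    (hξ : ‖ξ - ξ'‖ ≤ 1 / 4) (h1 : (θ - chi ξ - (θ' - chi ξ')) 1 = 0) :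
    (θ - chi ξ - (θ' - chi ξ')) (five k) = 0 := by
  set ψ := θ - chi ξ - (θ' - chi ξ') with hψ
  have h5 : (0 : ℝ) < 5 ^ k := by positivity
  set s : ℝ := ((ξ - ξ') * io (five k)).re with hs
  have hsb : |s| ≤ 1 / 4 * (5 ^ k)⁻¹ := by
    refine (Complex.abs_re_le_norm _).trans ?_
    rw [norm_mul, norm_io_five]
    gcongr
  set x : ℝ := L 0 (θ (five k)) - L 0 (θ' (five k)) - s with hx
  have e1 : ψ (five k) = (x : T) := by
    rw [hx, AddCircle.coe_sub, AddCircle.coe_sub, coe_L, coe_L, hs, ← chi_apply, chi_sub, hψ]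
    simp only [AddMonoidHom.sub_apply]; abel
  have e2 : ((((5 ^ k : ℕ) : ℝ) * x : ℝ) : T) = 0 := by
    rw [coe_nat_mul, ← e1, ← map_nsmul, ← h1]
    congr 1
    simp [five]
  have e3 : |((5 ^ k : ℕ) : ℝ) * x| < 1 := by
    have a1 := L0_nonneg (θ 2)
    have a2 := L0_lt (θ 2)
    have a3 := L0_nonneg (θ' 2)
    have a4 := L0_lt (θ' 2)
    have : ((5 ^ k : ℕ) : ℝ) * x = (L 0 (θ 2) - L 0 (θ' 2)) / 2 - 5 ^ k * s := by
      rw [hx, L_five, L_five, hd, MM_cast]; push_cast; field_simp; ring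
    rw [this]
    have b1 : |5 ^ k * s| ≤ 1 / 4 := by
      rw [abs_mul, abs_of_pos h5]
      calc (5 : ℝ) ^ k * |s| ≤ 5 ^ k * (1 / 4 * (5 ^ k)⁻¹) := by gcongr
        _ = 1 / 4 := by field_simp
    rw [abs_le] at b1
    rw [abs_lt]; constructor <;> linarith [b1.1, b1.2]
  have e4 := coe_eq_zero_of_abs_lt e2 e3
  have : x = 0 := by
    rcases mul_eq_zero.1 e4 with h | h
    · exact absurd h (by positivity)
    · exact h
  rw [e1, this]; simp

variable (ν : Measure X) [IsFiniteMeasure ν]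

lemma exists_approx (k d : ℕ) {ε : ℝ} (hε : 0 < ε) :
    ∃ g : BoundedContinuousFunction (Idx → T) ℝ,
      ∫ θ, |ww ν k d θ - g (res θ)| ∂ν ≤ ε := by
  obtain ⟨h, hm, hh⟩ := (sm_ww ν k d).exists_eq_measurable_comp
  have hi : Integrable h (ν.map res) := by
    rw [integrable_map_measure hm.aestronglyMeasurable measurable_res.aemeasurable, ← hh]
    exact integrable_condExp
  obtain ⟨g, hg, _⟩ := hi.exists_boundedContinuous_integral_sub_le hε
  refine ⟨g, ?_⟩
  rw [integral_map (f := fun x => ‖h x - g x‖) measurable_res.aemeasurable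
    (hm.aestronglyMeasurable.sub g.continuous.aestronglyMeasurable).norm] at hg
  simpa [hh] using hg

lemma exists_LP (k : ℕ) {c δ : ℝ} (hc : 0 < c) (hδ : 0 < δ) :
    ∃ K : Set X, MeasurableSet K ∧ ν.real (E0 ν c \ K) ≤ δ ∧
      ∃ N : GaussianInt, IsCoprime N qq ∧ ∃ η : ℝ, 0 < η ∧ η ≤ 1 / 4 ∧
        LP K (jj N * jj pp ^ (k + 1))⁻¹ ((jj N * jj pp ^ (k + 1))⁻¹ / jj qq ^ (k + 1)) η
          ⌈2 / c⌉₊ := by
  classical
  set n := k + 1 with hn
  have hM : (0 : ℝ) < MM n := by exact_mod_cast MM_pos n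
  set τ := c / 6 with hτ
  have hτ0 : 0 < τ := by positivity
  choose g hg using fun d => exists_approx ν n d (show 0 < δ / MM n * τ by positivity)
  let Bad : ℕ → Set X := fun d => {θ | τ ≤ |ww ν n d θ - g d (res θ)|}
  have hmeas : ∀ d, Measurable (fun θ => |ww ν n d θ - g d (res θ)|) := fun d =>
    ((measurable_ww ν n d).sub ((g d).continuous.comp continuous_res).measurable).abs
  have hBm : ∀ d, MeasurableSet (Bad d) := fun d => measurableSet_le measurable_const (hmeas d)
  have hB : ∀ d, ν.real (Bad d) ≤ δ / MM n := by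
    intro d
    have hi : Integrable (fun θ => |ww ν n d θ - g d (res θ)|) ν := by
      refine Integrable.abs (Integrable.sub integrable_condExp ?_)
      exact integrable_of_bdd ((g d).continuous.comp continuous_res).aestronglyMeasurable
        ‖g d‖ (fun θ => (g d).norm_coe_le_norm _)
    have := mul_meas_ge_le_integral_of_nonneg
      (Eventually.of_forall fun θ => abs_nonneg _) hi τ
    have h2 := this.trans (hg d)
    rw [mul_comm] at h2
    exact le_of_mul_le_mul_right h2 hτ0
  let K : Set X := ({θ | c ≤ WW ν n θ} ∩ Good ν n) \ ⋃ d ∈ Finset.range (MM n), Bad d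
  have hKm : MeasurableSet K :=
    ((measurableSet_le measurable_const (measurable_WW ν n)).inter (measurableSet_good ν n)).diff
      (Finset.measurableSet_biUnion _ fun d _ => hBm d)
  have hKb : ν.real (E0 ν c \ K) ≤ δ := by
    have hsub : E0 ν c \ K ⊆ (Good ν n)ᶜ ∪ ⋃ d ∈ Finset.range (MM n), Bad d := by
      rintro θ ⟨h1, h2⟩
      by_contra hcon
      rw [mem_union, not_or] at hcon
      exact h2 ⟨⟨h1 k, not_not.1 hcon.1⟩, hcon.2⟩
    refine (measureReal_mono hsub).trans ((measureReal_union_le _ _).trans ?_)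
    have h0 : ν.real (Good ν n)ᶜ = 0 := by
      have : ν (Good ν n)ᶜ = 0 := ae_good ν n
      simp [Measure.real, this]
    rw [h0, zero_add]
    refine (measureReal_biUnion_finset_le _ _).trans ?_
    refine (Finset.sum_le_sum fun d _ => hB d).trans (le_of_eq ?_)
    simp only [Finset.sum_const, Finset.card_range, nsmul_eq_mul]
    field_simp
  have hU : (⋂ d ∈ Finset.range (MM n), {p : (Idx → T) × (Idx → T) |
      dist (g d p.1) (g d p.2) < τ}) ∈ uniformity (Idx → T) := by
    rw [biInter_finset_mem]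
    intro d _
    exact (CompactSpace.uniformContinuous_of_continuous (g d).continuous)
      (Metric.dist_mem_uniformity hτ0)
  obtain ⟨I, t, ht, hI⟩ := pi_unif hU
  set N : GaussianInt := ∏ i ∈ I, i.1.2 with hN
  have hNc : IsCoprime N qq := IsCoprime.prod_left fun i _ => i.2
  have hN0 := jj_ne_zero (ne_zero_of_coprime hNc)
  have hu : jj pp ^ n ≠ 0 := pow_ne_zero _ jj_pp_ne
  set ρ : ℝ := ∑ i ∈ I, ‖io i.el‖ with hρ
  have hρ0 : 0 ≤ ρ := Finset.sum_nonneg fun _ _ => norm_nonneg _
  refine ⟨K, hKm, hKb, N, hNc, min (1 / 4) (t / (ρ + 1)), lt_min (by norm_num) (by positivity),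
    min_le_left _ _, ?_⟩
  intro s θ ξ a1 a2 a3 a4
  by_contra hcon
  push Not at hcon
  have hinj : InjOn (fun i => dig n (θ i)) s := by
    intro i hi i' hi' hd
    by_contra hne
    apply hcon i hi i' hi' hne
    apply van_refine hNc n (a3 i hi i' hi')
    apply same_digit hd ((a2 i hi i' hi').trans (min_le_left _ _))
    have := a3 i hi i' hi' (N * pp ^ n)
    rwa [map_mul jj, map_pow jj, inv_mul_cancel₀ (mul_ne_zero hN0 hu)] at this
  have hclose : ∀ i ∈ s, ∀ i' ∈ s, ∀ d ∈ Finset.range (MM n),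
      dist (g d (res (θ i))) (g d (res (θ i'))) < τ := by
    intro i hi i' hi' d hd
    have : (res (θ i), res (θ i')) ∈ _ := hI _ _ ?_
    · exact mem_iInter₂.1 this d hd
    intro r hr
    obtain ⟨N', hN'⟩ : r.1.2 ∣ N := Finset.dvd_prod_of_mem _ hr
    have hr0 := jj_ne_zero (ne_zero_of_coprime r.2)
    have hel : r.el = (jj N * jj pp ^ n)⁻¹ * jj (r.1.1 * N' * pp ^ n) := by
      have hN'0 : jj N' ≠ 0 := by
        intro h; apply hN0; rw [hN', map_mul, h, mul_zero]
      rw [hN', Idx.el]; simp only [map_mul, map_pow]; field_simp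
    have hv := a3 i hi i' hi' (r.1.1 * N' * pp ^ n)
    rw [← hel] at hv
    have hdiff : θ i r.el - θ i' r.el = chi (ξ i - ξ i') r.el := by
      rw [chi_sub]
      simp only [AddMonoidHom.sub_apply] at hv ⊢
      rw [← sub_eq_zero, ← hv]; abel
    rw [dist_eq_norm]
    change ‖θ i r.el - θ i' r.el‖ < t
    rw [hdiff]
    refine (norm_chi_le _ _).trans_lt ?_
    have b1 : ‖ξ i - ξ i'‖ ≤ t / (ρ + 1) := (a2 i hi i' hi').trans (min_le_right _ _)
    have b2 : ‖io r.el‖ ≤ ρ := Finset.single_le_sum (f := fun i : Idx => ‖io i.el‖)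
      (fun _ _ => norm_nonneg _) hr
    calc _ ≤ t / (ρ + 1) * ρ := by gcongr
      _ < t := by rw [div_mul_eq_mul_div, div_lt_iff₀ (by positivity)]; nlinarith
  have hpos : 0 < s.card := by omega
  obtain ⟨i0, hi0⟩ := Finset.card_pos.1 hpos
  have hgood := (a1 i0 hi0).1.2
  have hnb : ∀ i ∈ s, ∀ d ∈ Finset.range (MM n), |ww ν n d (θ i) - g d (res (θ i))| < τ := by
    intro i hi d hd
    by_contra h
    exact (a1 i hi).2 (mem_iUnion₂.2 ⟨d, hd, not_lt.1 h⟩)
  have hlow : ∀ i ∈ s, c / 2 ≤ ww ν n (dig n (θ i)) (θ i0) := by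
    intro i hi
    have hd := Finset.mem_range.2 (dig_lt n (θ i))
    have b1 : c ≤ ww ν n (dig n (θ i)) (θ i) := (a1 i hi).1.1
    have b2 := abs_lt.1 (hnb i hi _ hd)
    have b3 := abs_lt.1 (hnb i0 hi0 _ hd)
    have b4 := hclose i hi i0 hi0 _ hd
    rw [Real.dist_eq, abs_lt] at b4
    linarith [b2.1, b2.2, b3.1, b3.2, b4.1, b4.2]
  have hsum : ∑ i ∈ s, ww ν n (dig n (θ i)) (θ i0) ≤ 1 := by
    rw [← Finset.sum_image (f := fun d => ww ν n d (θ i0)) hinj, ← hgood.2]
    apply Finset.sum_le_sum_of_subset_of_nonneg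
    · intro d hd
      obtain ⟨i, _, rfl⟩ := Finset.mem_image.1 hd
      exact Finset.mem_range.2 (dig_lt _ _)
    · exact fun d _ _ => hgood.1 d
  have h1 : (s.card : ℝ) * (c / 2) ≤ 1 := by
    refine le_trans ?_ hsum
    have := Finset.card_nsmul_le_sum s _ _ hlow
    simpa using this
  have h2 : 2 / c < s.card := lt_of_le_of_lt (Nat.le_ceil _) (by exact_mod_cast a4)
  rw [div_lt_iff₀ hc] at h2
  linarith

end Pool.Agent.MP_fc94d9_co

end
end

section

set_option autoImplicit false

open MeasureTheory Filter Topology Set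

noncomputable section

namespace Pool.Agent.MP_fc94d9_co

/-- The plane wave `exp (2 π i Re y)`. -/
def wv (y : ℂ) : ℂ := E ((y.re : ℝ) : T)

lemma continuous_wv : Continuous wv :=
  continuous_E.comp ((AddCircle.continuous_mk' 1).comp Complex.continuous_re)

@[simp] lemma norm_wv (y : ℂ) : ‖wv y‖ = 1 := norm_E _

/-- The average of a plane wave over a circle. -/
def BB (y : ℂ) : ℂ := ∫ t : T, wv (y * E t)

lemma continuous_BB : Continuous BB := by
  refine continuous_of_dominated (bound := fun _ => 1) (fun y => ?_)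
    (fun y => Eventually.of_forall fun t => by simp) (integrable_const _)
    (Eventually.of_forall fun t => continuous_wv.comp (by fun_prop))
  exact (continuous_wv.comp (continuous_const.mul continuous_E)).aestronglyMeasurable

lemma norm_BB_le (y : ℂ) : ‖BB y‖ ≤ 1 := by
  have := norm_integral_le_of_norm_le_const (μ := (volume : Measure T))
    (f := fun t : T => wv (y * E t)) (C := 1) (Eventually.of_forall fun t => by simp)
  simpa [BB, Measure.real, UnitAddCircle.measure_univ] using this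

lemma exists_E_eq {u : ℂ} (hu : ‖u‖ = 1) : ∃ t : T, E t = u := by
  refine ⟨((u.arg / (2 * Real.pi) : ℝ) : T), ?_⟩
  rw [E_coe]
  have := Complex.norm_mul_exp_arg_mul_I u
  rw [hu] at this
  rw [← this]
  have hpi : (Real.pi : ℂ) ≠ 0 := by exact_mod_cast Real.pi_ne_zero
  simp only [Complex.ofReal_one, one_mul]
  congr 1
  have e : Complex.arg (Complex.exp (↑u.arg * Complex.I)) = u.arg := by
    simp only [Complex.ofReal_one, one_mul] at this; rw [this]
  rw [e]
  push_cast
  field_simp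

lemma BB_norm (y : ℂ) : BB y = BB (‖y‖ : ℂ) := by
  by_cases hy : y = 0
  · simp [hy]
  have hn : (‖y‖ : ℂ) ≠ 0 := by exact_mod_cast norm_ne_zero_iff.2 hy
  obtain ⟨α, hα⟩ := exists_E_eq (u := y / ‖y‖) (by
    rw [norm_div, Complex.norm_real, norm_norm, div_self (norm_ne_zero_iff.2 hy)])
  unfold BB
  rw [← integral_add_left_eq_self (fun t : T => wv ((‖y‖ : ℂ) * E t)) α]
  congr 1
  funext t
  rw [E_add, hα]
  congr 1
  field_simp

lemma half_tendsto {I : Set ℝ} (hI : MeasurableSet I)
    (hinj : InjOn (fun s : ℝ => Real.cos (2 * Real.pi * s)) I)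
    (hsin : ∀ s ∈ I, Real.sin (2 * Real.pi * s) ≠ 0) :
    Tendsto (fun ρ : ℝ => ∫ s in I, wv ((ρ : ℂ) * E (s : T))) atTop (𝓝 0) := by
  set f : ℝ → ℝ := fun s => Real.cos (2 * Real.pi * s) with hf
  have hfm : MeasurableSet (f '' I) :=
    hI.image_of_continuousOn_injOn (by fun_prop) hinj
  set g : ℝ → ℂ := fun x => ((1 / (2 * Real.pi * Real.sqrt (1 - x ^ 2)) : ℝ) : ℂ) with hg
  have h1 := (Real.tendsto_integral_exp_smul_cocompact ((f '' I).indicator g)).comp
    (tendsto_neg_atTop_atBot.mono_right atBot_le_cocompact)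
  refine h1.congr fun ρ => ?_
  simp only [Function.comp]
  have e1 : ∀ v : ℝ, Real.fourierChar (-(v * -ρ)) • (f '' I).indicator g v =
      (f '' I).indicator (fun v => Real.fourierChar (v * ρ) • g v) v := by
    intro v
    by_cases hv : v ∈ f '' I
    · simp [indicator_of_mem hv]
    · simp [indicator_of_notMem hv]
  simp only [e1]
  rw [integral_indicator hfm, integral_image_eq_integral_abs_deriv_smul hI
    (f' := fun s => -Real.sin (2 * Real.pi * s) * (2 * Real.pi)) ?_ hinj]
  · refine setIntegral_congr_fun hI fun s hs => ?_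
    have h2 : Real.sqrt (1 - f s ^ 2) = |Real.sin (2 * Real.pi * s)| := by
      rw [← Real.sqrt_sq_eq_abs, Real.sin_sq]
    have h3 : (|Real.sin (2 * Real.pi * s)| : ℝ) ≠ 0 := abs_ne_zero.2 (hsin s hs)
    have hpi := Real.pi_pos
    have h4 : ((ρ : ℂ) * E (s : T)).re = f s * ρ := by
      rw [E_coe, Complex.re_ofReal_mul]
      have : (2 * Real.pi * s * Complex.I : ℂ) = ((2 * Real.pi * s : ℝ) : ℂ) * Complex.I := by
        push_cast; ring
      rw [this, Complex.exp_ofReal_mul_I_re, mul_comm]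
    simp only [wv, h4]
    simp only [hg, h2, E_coe, Circle.smul_def, Real.fourierChar_apply, smul_eq_mul,
      Complex.real_smul, abs_mul, abs_neg, abs_of_pos hpi, abs_two]
    have h5 : ((|Real.sin (2 * Real.pi * s)| : ℝ) : ℂ) ≠ 0 := by exact_mod_cast h3
    have h6 : (Real.pi : ℂ) ≠ 0 := by exact_mod_cast hpi.ne'
    push_cast
    field_simp
  · intro s _
    have : HasDerivAt (fun s : ℝ => 2 * Real.pi * s) (2 * Real.pi) s := by
      simpa using (hasDerivAt_id s).const_mul (2 * Real.pi)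
    exact this.cos.hasDerivWithinAt

lemma BB_tendsto : Tendsto (fun ρ : ℝ => BB (ρ : ℂ)) atTop (𝓝 0) := by
  have hpi := Real.pi_pos
  have i1 : InjOn (fun s : ℝ => Real.cos (2 * Real.pi * s)) (Ioo 0 (1 / 2)) := by
    intro a ha b hb hab
    have := Real.injOn_cos (x₁ := 2 * Real.pi * a) (x₂ := 2 * Real.pi * b)
      ⟨by nlinarith [ha.1], by nlinarith [ha.2]⟩ ⟨by nlinarith [hb.1], by nlinarith [hb.2]⟩ hab
    exact mul_left_cancel₀ (by positivity) this
  have s1 : ∀ s ∈ Ioo (0 : ℝ) (1 / 2), Real.sin (2 * Real.pi * s) ≠ 0 := fun s hs =>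
    (Real.sin_pos_of_pos_of_lt_pi (by nlinarith [hs.1]) (by nlinarith [hs.2])).ne'
  have h1 := half_tendsto measurableSet_Ioo i1 s1
  have h2 := half_tendsto (I := Ioo (-(1 / 2)) 0) measurableSet_Ioo (by
    intro a ha b hb hab
    have := i1 (x₁ := -a) (x₂ := -b) ⟨by linarith [ha.2], by linarith [ha.1]⟩
      ⟨by linarith [hb.2], by linarith [hb.1]⟩ (by simpa using hab)
    linarith) (by
    intro s hs
    have := s1 (-s) ⟨by linarith [hs.2], by linarith [hs.1]⟩
    simpa using this)
  have h3 := h2.add h1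
  rw [add_zero] at h3
  refine h3.congr fun ρ => ?_
  have hc : Continuous (fun s : ℝ => wv ((ρ : ℂ) * E (s : T))) :=
    continuous_wv.comp (continuous_const.mul (continuous_E.comp (AddCircle.continuous_mk' 1)))
  rw [BB, ← UnitAddCircle.intervalIntegral_preimage (-(1 / 2)),
    ← intervalIntegral.integral_add_adjacent_intervals (b := 0) (hc.intervalIntegrable _ _)
      (hc.intervalIntegrable _ _), intervalIntegral.integral_of_le (by norm_num),
    intervalIntegral.integral_of_le (by norm_num), integral_Ioc_eq_integral_Ioo,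
    integral_Ioc_eq_integral_Ioo]
  norm_num

lemma radial_of_irrational {h : ℂ → ℂ} (hc : Continuous h) {u : ℂ} (hu : ‖u‖ = 1)
    (hord : ∀ n : ℕ, 0 < n → u ^ n ≠ 1) (hinv : ∀ x, h (u * x) = h x) (x : ℂ) (t : T) :
    h (x * E t) = h x := by
  obtain ⟨α, hα⟩ := exists_E_eq hu
  have hd : DenseRange (fun n : ℤ => n • α) := by
    rw [AddCircle.denseRange_zsmul_iff, addOrderOf_eq_zero_iff']
    intro n hn h0
    apply hord n hn
    rw [← hα, ← E_nsmul, h0, E_zero]
  have key : ∀ n : ℤ, h (x * E (n • α)) = h x := by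
    intro n
    induction n using Int.induction_on with
    | zero => simp
    | succ n ih =>
      rw [add_smul, one_smul, E_add, hα, ← mul_assoc, mul_comm _ u, hinv, ih]
    | pred n ih =>
      rw [← hinv, ← ih]
      congr 1
      rw [← hα, mul_left_comm, ← E_add]
      congr 2
      rw [sub_smul, one_smul]; abel
  have := hd.equalizer (g := fun t => h (x * E t)) (h := fun _ => h x)
    (hc.comp (continuous_const.mul continuous_E)) continuous_const (funext key)
  exact congrFun this t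

end Pool.Agent.MP_fc94d9_co

end
end
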